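import Mathlib

/-!
# The zigzag does not fit: the trigonometric core

`(C, S)` is a unit vector, the triangle has base `1` and cotangents `m` (right) and `n` (left) of
its base angles, the zigzag has slope `κ / 3`.
-/

set_option autoImplicit false

noncomputable section

namespace TriW

theorem arc {C S x₁ y₁ x₂ y₂ N₁ N₂ g g' K : ℝ} (he : C ^ 2 + S ^ 2 = 1)
    (hN₁ : x₁ ^ 2 + y₁ ^ 2 = N₁ ^ 2) (hN₂ : x₂ ^ 2 + y₂ ^ 2 = N₂ ^ 2) (n₁ : 0 ≤ N₁) (n₂ : 0 ≤ N₂)
    (hD : 0 < x₁ * y₂ - x₂ * y₁) (h1 : 0 ≤ x₁ * S - y₁ * C) (h2 : 0 ≤ C * y₂ - S * x₂)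
    (hK : 0 ≤ K) (G1 : K * N₁ ≤ g * x₁ + g' * y₁) (G2 : K * N₂ ≤ g * x₂ + g' * y₂) :
    K ≤ g * C + g' * S := by
  set D := x₁ * y₂ - x₂ * y₁ with hDd
  set p := C * y₂ - S * x₂ with hp
  set q := x₁ * S - y₁ * C with hq
  have e : D * (g * C + g' * S) = p * (g * x₁ + g' * y₁) + q * (g * x₂ + g' * y₂) := by
    rw [hDd, hp, hq]; ring
  have dot : x₁ * x₂ + y₁ * y₂ ≤ N₁ * N₂ := by
    refine abs_le_of_sq_le_sq' ?_ (by positivity) |>.2
    rw [mul_pow, ← hN₁, ← hN₂]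
    nlinarith [sq_nonneg (x₁ * y₂ - x₂ * y₁)]
  have tri : D ≤ p * N₁ + q * N₂ := by
    refine abs_le_of_sq_le_sq' ?_ (by positivity) |>.2
    have e2 : D ^ 2 = p ^ 2 * N₁ ^ 2 + q ^ 2 * N₂ ^ 2 + 2 * (p * q) * (x₁ * x₂ + y₁ * y₂) := by
      have : D ^ 2 = D ^ 2 * (C ^ 2 + S ^ 2) := by rw [he, mul_one]
      rw [this, ← hN₁, ← hN₂, hDd, hp, hq]
      ring
    rw [e2]
    have := mul_le_mul_of_nonneg_left dot (mul_nonneg h2 h1)
    nlinarith
  have : D * K ≤ D * (g * C + g' * S) := by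
    rw [e]
    calc D * K ≤ (p * N₁ + q * N₂) * K := mul_le_mul_of_nonneg_right tri hK
      _ = p * (K * N₁) + q * (K * N₂) := by ring
      _ ≤ _ := add_le_add (mul_le_mul_of_nonneg_left G1 h2) (mul_le_mul_of_nonneg_left G2 h1)
  exact le_of_mul_le_mul_left this hD

/-- The core inequality. -/
theorem core {C S m n κ r a b σ : ℝ} (he : C ^ 2 + S ^ 2 = 1) (hS : 0 ≤ S) (hκ : 0 < κ)
    (hm : κ ≤ m) (hn : κ ≤ n) (hσ : σ = m + n) (hr : r ^ 2 = 9 + κ ^ 2) (hr0 : 0 < r)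
    (ha : a ^ 2 = 1 + m ^ 2) (hb : b ^ 2 = 1 + n ^ 2) (ha0 : 0 < a) (hb0 : 0 < b)
    (haσ : a ≤ σ) (hbσ : b ≤ σ) (hmn : m * n < 3) (H1 : r ^ 3 ≤ 27 + 7 * κ ^ 2)
    (H2 : r ^ 2 * a ≤ 9 * σ + κ * (1 - m * n))
    (H3 : r ^ 3 * b ≤ (27 + κ ^ 2) * σ + 6 * κ * (1 - m * n)) :
    r ^ 2 ≤ (6 * (C + m * S)) + ((3 * C - κ * S) + m * (3 * S + κ * C)) ∨
    r ^ 2 ≤ (6 * (C + m * S)) + σ * (3 * S + κ * C) ∨
    r ^ 2 ≤ 6 * (σ * S) + σ * (3 * S + κ * C) ∨
    r ^ 2 ≤ 6 * (σ * S) + (-(3 * C - κ * S) + n * (3 * S + κ * C)) ∨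
    r ^ 2 ≤ 6 * (-C + n * S) + (-(3 * C - κ * S) + n * (3 * S + κ * C)) ∨
    r ^ 2 ≤ 6 * (-C + n * S) + (-(3 * C - κ * S) - m * (3 * S + κ * C)) := by
  have hm0 : 0 < m := hκ.trans_le hm
  have hn0 : 0 < n := hκ.trans_le hn
  have hσ0 : 0 < σ := by rw [hσ]; positivity
  have hK : 0 ≤ r ^ 2 := by positivity
  have hnκ : n * κ < 3 := by nlinarith
  have hmκ : m * κ < 3 := by nlinarith
  have v1 : (9 + κ ^ 2) * σ ≤ σ * (9 + κ * n) := by
    nlinarith [mul_nonneg (mul_nonneg hσ0.le hκ.le) (sub_nonneg.2 hn)]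
  have v2 : (27 + 7 * κ ^ 2) * σ ≤ σ * (27 + κ ^ 2 + 6 * κ * m) := by
    nlinarith [mul_nonneg (mul_nonneg hσ0.le hκ.le) (sub_nonneg.2 hm)]
  -- the six directions
  by_cases c1 : 0 ≤ C * (3 - n * κ) - S * (3 * n + κ)
  · left
    have := arc (x₁ := 1) (y₁ := 0) (x₂ := 3 * n + κ) (y₂ := 3 - n * κ) (N₁ := 1) (N₂ := r * b)
      (g := 9 + κ * m) (g' := 9 * m - κ) (K := r ^ 2) he (by ring)
      (by rw [mul_pow, hr, hb]; ring) zero_le_one (by positivity) (by linarith) (by linarith) c1 hK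
      (by rw [hr]; nlinarith) (by
        have : r ^ 2 * (r * b) = r ^ 3 * b := by ring
        rw [this]
        refine H3.trans ?_
        rw [hσ]
        nlinarith [mul_nonneg hκ.le (mul_nonneg (sub_nonneg.2 hm) hn0.le),
          mul_nonneg (sub_nonneg.2 hm) (sub_nonneg.2 hn)])
    linarith
  right
  rw [not_le] at c1
  by_cases c2 : 0 ≤ C * 1 - S * n
  · left
    have := arc (x₁ := 3 * n + κ) (y₁ := 3 - n * κ) (x₂ := n) (y₂ := 1) (N₁ := r * b) (N₂ := b)
      (g := 6 + σ * κ) (g' := 6 * m + 3 * σ) (K := r ^ 2) he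
      (by rw [mul_pow, hr, hb]; ring) (by rw [hb]; ring) (by positivity) hb0.le (by nlinarith)
      (by linarith) c2 hK
      (by
        have : r ^ 2 * (r * b) = r ^ 3 * b := by ring
        rw [this]
        refine H3.trans ?_
        rw [hσ]
        nlinarith) (by
        have : r ^ 2 * b ≤ r ^ 2 * σ := mul_le_mul_of_nonneg_left hbσ hK
        refine this.trans ?_
        rw [hr]
        refine v1.trans (le_of_eq ?_)
        rw [hσ]
        ring)
    linarith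
  right
  rw [not_le] at c2
  by_cases c3 : 0 ≤ C * (3 + κ * m) - S * (κ - 3 * m)
  · left
    have := arc (x₁ := n) (y₁ := 1) (x₂ := κ - 3 * m) (y₂ := 3 + κ * m) (N₁ := b) (N₂ := r * a)
      (g := σ * κ) (g' := 9 * σ) (K := r ^ 2) he
      (by rw [hb]; ring) (by rw [mul_pow, hr, ha]; ring) hb0.le (by positivity) (by nlinarith)
      (by linarith) c3 hK
      (by
        have : r ^ 2 * b ≤ r ^ 2 * σ := mul_le_mul_of_nonneg_left hbσ hK
        refine this.trans ?_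
        rw [hr]
        refine v1.trans (le_of_eq ?_)
        ring) (by
        have : r ^ 2 * (r * a) = r ^ 3 * a := by ring
        rw [this]
        have : r ^ 3 * a ≤ r ^ 3 * σ := mul_le_mul_of_nonneg_left haσ (by positivity)
        refine this.trans ((mul_le_mul_of_nonneg_right H1 hσ0.le).trans (v2.trans (le_of_eq ?_)))
        ring)
    linarith
  right
  rw [not_le] at c3
  by_cases c4 : 0 ≤ C * 1 - S * (-m)
  · left
    have := arc (x₁ := κ - 3 * m) (y₁ := 3 + κ * m) (x₂ := -m) (y₂ := 1) (N₁ := r * a) (N₂ := a)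
      (g := -3 + n * κ) (g' := 6 * σ + κ + 3 * n) (K := r ^ 2) he
      (by rw [mul_pow, hr, ha]; ring) (by rw [ha]; ring) (by positivity) ha0.le (by nlinarith)
      (by linarith) c4 hK
      (by
        have : r ^ 2 * (r * a) = r ^ 3 * a := by ring
        rw [this]
        have : r ^ 3 * a ≤ r ^ 3 * σ := mul_le_mul_of_nonneg_left haσ (by positivity)
        refine this.trans ((mul_le_mul_of_nonneg_right H1 hσ0.le).trans (v2.trans (le_of_eq ?_)))
        rw [hσ]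
        ring) (by
        refine H2.trans ?_
        rw [hσ]
        nlinarith)
    linarith
  right
  rw [not_le] at c4
  by_cases c5 : 0 ≤ C * κ - S * (-3)
  · left
    have := arc (x₁ := -m) (y₁ := 1) (x₂ := -3) (y₂ := κ) (N₁ := a) (N₂ := r)
      (g := -9 + n * κ) (g' := 9 * n + κ) (K := r ^ 2) he
      (by rw [ha]; ring) (by rw [hr]; ring) ha0.le hr0.le (by nlinarith)
      (by linarith) c5 hK
      (by
        refine H2.trans ?_
        rw [hσ]
        nlinarith) (by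
        have : r ^ 2 * r = r ^ 3 := by ring
        rw [this]
        refine H1.trans ?_
        nlinarith)
    linarith
  right
  rw [not_le] at c5
  have := arc (x₁ := -3) (y₁ := κ) (x₂ := -1) (y₂ := 0) (N₁ := r) (N₂ := 1)
      (g := -9 - m * κ) (g' := 6 * n + κ - 3 * m) (K := r ^ 2) he
      (by rw [hr]; ring) (by ring) hr0.le zero_le_one (by linarith)
      (by linarith) (by linarith) hK
      (by
        have : r ^ 2 * r = r ^ 3 := by ring
        rw [this]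
        refine H1.trans ?_
        nlinarith) (by
        rw [hr]
        nlinarith)
  linarith

end TriW
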