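import Pool.Agent.TriW.Fat

/-!
# All triangles: chord orientation
-/

set_option autoImplicit false

noncomputable section

open Finset

namespace TriW

/-- Rotate a curve so that its chord points to the right. -/
theorem chord (γ : unitInterval → ℂ) : ∃ φ : ℂ ≃ᵢ ℂ, (φ (γ 1)).im = (φ (γ 0)).im ∧
    (φ (γ 0)).re ≤ (φ (γ 1)).re := by
  by_cases h : γ 1 = γ 0
  · exact ⟨IsometryEquiv.refl ℂ, by rw [h], by rw [h]⟩
  set d := γ 1 - γ 0 with hd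
  have hd0 : d ≠ 0 := sub_ne_zero.2 h
  have hn : ‖d‖ ≠ 0 := norm_ne_zero_iff.2 hd0
  have hn1 : ‖(starRingEnd ℂ) d / (‖d‖ : ℂ)‖ = 1 := by
    rw [norm_div, RCLike.norm_conj, Complex.norm_real, norm_norm, div_self hn]
  set u : Circle := ⟨(starRingEnd ℂ) d / (‖d‖ : ℂ), mem_sphere_zero_iff_norm.2 hn1⟩ with hu
  have hud : (u : ℂ) * d = (‖d‖ : ℂ) := by
    change (starRingEnd ℂ) d / (‖d‖ : ℂ) * d = _
    have hne : (‖d‖ : ℂ) ≠ 0 := by exact_mod_cast hn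
    rw [div_mul_eq_mul_div, Complex.conj_mul', sq, mul_div_assoc, div_self hne, mul_one]
  have e : (u : ℂ) * γ 1 = (u : ℂ) * γ 0 + (‖d‖ : ℂ) := by
    rw [← hud, hd]; ring
  refine ⟨(rotation u).toIsometryEquiv, ?_, ?_⟩
  · change ((u : ℂ) * γ 1).im = ((u : ℂ) * γ 0).im
    rw [e]; simp
  · change ((u : ℂ) * γ 0).re ≤ ((u : ℂ) * γ 1).re
    rw [e]; simp

/-- The extent of a functional along a path: after adding the whole difference if the order is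
reversed, the cumulative weights are `0` or `1`. -/
theorem order (a b : unitInterval) : ∃ e : ℤ, (e = 0 ∨ e = 1) ∧ ∀ s : unitInterval, s < 1 →
    ∃ κ : Bool, e + iz (s < a) - iz (s < b) = bz κ := by
  rcases le_or_gt b a with h | h
  · refine ⟨0, Or.inl rfl, fun s _ => ?_⟩
    by_cases h1 : s < b
    · exact ⟨false, by rw [iz_pos h1, iz_pos (h1.trans_le h)]; rfl⟩
    · by_cases h2 : s < a
      · exact ⟨true, by rw [iz_neg h1, iz_pos h2]; rfl⟩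
      · exact ⟨false, by rw [iz_neg h1, iz_neg h2]; rfl⟩
  · refine ⟨1, Or.inr rfl, fun s _ => ?_⟩
    by_cases h1 : s < a
    · exact ⟨true, by rw [iz_pos h1, iz_pos (h1.trans h)]; rfl⟩
    · by_cases h2 : s < b
      · exact ⟨false, by rw [iz_neg h1, iz_pos h2]; rfl⟩
      · exact ⟨true, by rw [iz_neg h1, iz_neg h2]; rfl⟩

/-- The states. -/
theorem chord_states {μ : ℝ} (h0 : 0 ≤ μ) (h1 : μ ≤ 1 / 2) (k₁ k₂ k₃ k₄ k₅ : Bool) :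
    ((((bz k₁ : ℝ) + bz k₂ + bz k₃ + bz k₄) ^ 2 ≤ 16 ∧
      (μ * ((bz k₁ : ℝ) - bz k₂) + (1 - μ) * ((bz k₃ : ℝ) - bz k₄) + 2 * bz k₅ - 1) ^ 2 ≤ 1) ∨
    (((bz k₁ : ℝ) + bz k₂ + bz k₃ + bz k₄) ^ 2 ≤ 9 ∧
      (μ * ((bz k₁ : ℝ) - bz k₂) + (1 - μ) * ((bz k₃ : ℝ) - bz k₄) + 2 * bz k₅ - 1) ^ 2 ≤
        (2 - μ) ^ 2)) ∨
    (((bz k₁ : ℝ) + bz k₂ + bz k₃ + bz k₄) ^ 2 ≤ 4 ∧
      (μ * ((bz k₁ : ℝ) - bz k₂) + (1 - μ) * ((bz k₃ : ℝ) - bz k₄) + 2 * bz k₅ - 1) ^ 2 ≤ 4) := by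
  have t : ((bz true : ℤ) : ℝ) = 1 := by simp [bz]
  have f : ((bz false : ℤ) : ℝ) = 0 := by simp [bz]
  cases k₁ <;> cases k₂ <;> cases k₃ <;> cases k₄ <;> cases k₅ <;> simp only [t, f] <;>
    first
      | (left; left; constructor <;> nlinarith)
      | (left; right; constructor <;> nlinarith)
      | (right; constructor <;> nlinarith)

/-- All triangles. -/
theorem all {A B C : ℂ} {c h μ : ℝ} (H : Pos A B C c h μ) (hμ0 : 0 ≤ μ) (hμ1 : μ ≤ 1 / 2)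
    {γ : unitInterval → ℂ} {l M : ℝ} (hl0 : 0 ≤ l) (hM0 : 0 < M)
    (hM1 : 16 / c ^ 2 + 1 / h ^ 2 ≤ M ^ 2) (hM2 : 9 / c ^ 2 + (2 - μ) ^ 2 / h ^ 2 ≤ M ^ 2)
    (hM3 : 4 / c ^ 2 + 4 / h ^ 2 ≤ M ^ 2)
    (hl : l * M ≤ 4) (hγ : IsCurve γ l) : Fits γ (Tri A B C) := by
  obtain ⟨φ, him, hre⟩ := chord γ
  refine Fits.comp φ ?_
  have hγ' := hγ.comp φ
  generalize hg : (fun t => φ (γ t)) = g at *
  have him' : (g 1).im = (g 0).im := by rw [← hg]; exact him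
  have hre' : (g 0).re ≤ (g 1).re := by rw [← hg]; exact hre
  by_contra hn
  have hc := H.c_pos
  have hh := H.h_pos
  obtain ⟨a₁, ha₁⟩ := exists_max hγ'.cont c h 1 μ
  obtain ⟨a₂, ha₂⟩ := exists_max hγ'.cont c h 1 (1 - μ)
  obtain ⟨b₁, hb₁⟩ := exists_max hγ'.cont c h (-1) μ
  obtain ⟨b₂, hb₂⟩ := exists_max hγ'.cont c h (-1) (1 - μ)
  obtain ⟨c₁, hc₁⟩ := exists_max hγ'.cont c h 1 (-μ)
  obtain ⟨c₂, hc₂⟩ := exists_max hγ'.cont c h 1 (-(1 - μ))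
  obtain ⟨d₁, hd₁⟩ := exists_max hγ'.cont c h (-1) (-μ)
  obtain ⟨d₂, hd₂⟩ := exists_max hγ'.cont c h (-1) (-(1 - μ))
  obtain ⟨y₁, hy₁⟩ := exists_max hγ'.cont c h 0 1
  obtain ⟨y₂, hy₂⟩ := exists_max hγ'.cont c h 0 (-1)
  have k1 := placements H hn (σ := 1) (τ := 1) (Or.inl rfl) (Or.inl rfl)
    (m₁ := F g c h 1 μ a₁) (m₂ := F g c h (-1) (1 - μ) b₂) (m₃ := F g c h 0 (-1) y₂)
    (by rwa [one_mul]) (by rwa [one_mul]) hy₂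
  have k2 := placements H hn (σ := -1) (τ := 1) (Or.inr rfl) (Or.inl rfl)
    (m₁ := F g c h (-1) μ b₁) (m₂ := F g c h 1 (1 - μ) a₂) (m₃ := F g c h 0 (-1) y₂)
    (by rwa [one_mul]) (by rwa [one_mul, neg_neg]) hy₂
  have k3 := placements H hn (σ := 1) (τ := -1) (Or.inl rfl) (Or.inr rfl)
    (m₁ := F g c h 1 (-μ) c₁) (m₂ := F g c h (-1) (-(1 - μ)) d₂) (m₃ := F g c h 0 1 y₁)
    (by rwa [neg_one_mul]) (by rwa [neg_one_mul]) (by rwa [neg_neg])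
  have k4 := placements H hn (σ := -1) (τ := -1) (Or.inr rfl) (Or.inr rfl)
    (m₁ := F g c h (-1) (-μ) d₁) (m₂ := F g c h 1 (-(1 - μ)) c₂) (m₃ := F g c h 0 1 y₁)
    (by rwa [neg_one_mul]) (by rwa [neg_one_mul, neg_neg]) (by rwa [neg_neg])
  obtain ⟨e₁, he₁, hs₁⟩ := order a₁ d₁
  obtain ⟨e₂, he₂, hs₂⟩ := order c₁ b₁
  obtain ⟨e₃, he₃, hs₃⟩ := order a₂ d₂
  obtain ⟨e₄, he₄, hs₄⟩ := order c₂ b₂
  obtain ⟨e₅, he₅, hs₅⟩ := order y₁ y₂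
  have pe : ∀ e : ℤ, (e = 0 ∨ e = 1) → (0 : ℝ) ≤ e := by
    rintro e (rfl | rfl) <;> norm_num
  have p1 := pe e₁ he₁
  have p2 := pe e₂ he₂
  have p3 := pe e₃ he₃
  have p4 := pe e₄ he₄
  clear he₁ he₂ he₃ he₄ he₅
  have key := cumulative hl0 hγ'.len.le
    ![a₁, a₂, b₁, b₂, c₁, c₂, d₁, d₂, y₁, y₂, 0, 1]
    ![1 / (4 * c), 1 / (4 * c), -1 / (4 * c), -1 / (4 * c), 1 / (4 * c), 1 / (4 * c), -1 / (4 * c),
      -1 / (4 * c), 0, 0, -(e₁ + e₂ + e₃ + e₄) / (4 * c), (e₁ + e₂ + e₃ + e₄) / (4 * c)]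
    ![μ / (4 * h), (1 - μ) / (4 * h), μ / (4 * h), (1 - μ) / (4 * h), -μ / (4 * h),
      -(1 - μ) / (4 * h), -μ / (4 * h), -(1 - μ) / (4 * h), 1 / (2 * h), -1 / (2 * h),
      -(μ * (e₁ - e₂) + (1 - μ) * (e₃ - e₄) + 2 * e₅ - 1) / (4 * h),
      (μ * (e₁ - e₂) + (1 - μ) * (e₃ - e₄) + 2 * e₅ - 1) / (4 * h)]
    (M := M / 4) (by positivity)
    (by simp [Fin.sum_univ_succ]; ring) (by simp [Fin.sum_univ_succ]; ring) ?_
  · have hMl : M / 4 * l ≤ 1 := by linarith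
    have : 1 < ∑ i, (![1 / (4 * c), 1 / (4 * c), -1 / (4 * c), -1 / (4 * c), 1 / (4 * c),
        1 / (4 * c), -1 / (4 * c), -1 / (4 * c), 0, 0, -(e₁ + e₂ + e₃ + e₄) / (4 * c),
        (e₁ + e₂ + e₃ + e₄) / (4 * c)] i *
          (g (![a₁, a₂, b₁, b₂, c₁, c₂, d₁, d₂, y₁, y₂, 0, 1] i)).re +
        ![μ / (4 * h), (1 - μ) / (4 * h), μ / (4 * h), (1 - μ) / (4 * h), -μ / (4 * h),
      -(1 - μ) / (4 * h), -μ / (4 * h), -(1 - μ) / (4 * h), 1 / (2 * h), -1 / (2 * h),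
      -(μ * (e₁ - e₂) + (1 - μ) * (e₃ - e₄) + 2 * e₅ - 1) / (4 * h),
      (μ * (e₁ - e₂) + (1 - μ) * (e₃ - e₄) + 2 * e₅ - 1) / (4 * h)] i *
          (g (![a₁, a₂, b₁, b₂, c₁, c₂, d₁, d₂, y₁, y₂, 0, 1] i)).im) := by
      have hs : 1 < 1 / 4 * (F g c h 1 μ a₁ + F g c h (-1) (1 - μ) b₂ + F g c h 0 (-1) y₂) +
          1 / 4 * (F g c h (-1) μ b₁ + F g c h 1 (1 - μ) a₂ + F g c h 0 (-1) y₂) +
          1 / 4 * (F g c h 1 (-μ) c₁ + F g c h (-1) (-(1 - μ)) d₂ + F g c h 0 1 y₁) +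
          1 / 4 * (F g c h (-1) (-μ) d₁ + F g c h 1 (-(1 - μ)) c₂ + F g c h 0 1 y₁) +
          (e₁ + e₂ + e₃ + e₄) / (4 * c) * ((g 1).re - (g 0).re) := by
        have : 0 ≤ (e₁ + e₂ + e₃ + e₄) / (4 * c) * ((g 1).re - (g 0).re) :=
          mul_nonneg (by positivity) (sub_nonneg.2 hre')
        linarith
      refine hs.trans_eq ?_
      simp only [Fin.sum_univ_succ, F]
      simp
      rw [him']
      field_simp
      ring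
    linarith
  · intro s
    rcases (unitInterval.le_one' (t := s)).eq_or_lt with rfl | hs1
    · have hz : ∀ t : unitInterval, ¬(1 < t) := fun t => not_lt.2 unitInterval.le_one'
      simp [hz]
      positivity
    obtain ⟨κ₁, hκ₁⟩ := hs₁ s hs1
    obtain ⟨κ₂, hκ₂⟩ := hs₂ s hs1
    obtain ⟨κ₃, hκ₃⟩ := hs₃ s hs1
    obtain ⟨κ₄, hκ₄⟩ := hs₄ s hs1
    obtain ⟨κ₅, hκ₅⟩ := hs₅ s hs1
    have z0 : iz (s < 0) = 0 := iz_neg (not_lt.2 unitInterval.nonneg')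
    have z1 : iz (s < 1) = 1 := iz_pos hs1
    simp only [Fin.sum_univ_succ]
    simp only [Matrix.cons_val_zero, Matrix.cons_val_succ, Fin.sum_univ_zero, add_zero]
    simp only [ite_iz, z0, z1]
    have st := chord_states hμ0 hμ1 κ₁ κ₂ κ₃ κ₄ κ₅
    have w1 : (e₁ : ℝ) + iz (s < a₁) - iz (s < d₁) = bz κ₁ := by exact_mod_cast hκ₁
    have w2 : (e₂ : ℝ) + iz (s < c₁) - iz (s < b₁) = bz κ₂ := by exact_mod_cast hκ₂
    have w3 : (e₃ : ℝ) + iz (s < a₂) - iz (s < d₂) = bz κ₃ := by exact_mod_cast hκ₃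
    have w4 : (e₄ : ℝ) + iz (s < c₂) - iz (s < b₂) = bz κ₄ := by exact_mod_cast hκ₄
    have w5 : (e₅ : ℝ) + iz (s < y₁) - iz (s < y₂) = bz κ₅ := by exact_mod_cast hκ₅
    rw [← w1, ← w2, ← w3, ← w4, ← w5] at st
    have fin : ∀ P Q X Y : ℝ, P ^ 2 ≤ X → Q ^ 2 ≤ Y → X / c ^ 2 + Y / h ^ 2 ≤ M ^ 2 →
        (P / (4 * c)) ^ 2 + (Q / (4 * h)) ^ 2 ≤ (M / 4) ^ 2 := by
      intro P Q X Y hP hQ hXY
      have i1 : P ^ 2 / c ^ 2 ≤ X / c ^ 2 := div_le_div_of_nonneg_right hP (by positivity)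
      have i2 : Q ^ 2 / h ^ 2 ≤ Y / h ^ 2 := div_le_div_of_nonneg_right hQ (by positivity)
      have i3 : (P / (4 * c)) ^ 2 = P ^ 2 / c ^ 2 / 16 := by field_simp; ring
      have i4 : (Q / (4 * h)) ^ 2 = Q ^ 2 / h ^ 2 / 16 := by field_simp; ring
      rw [i3, i4]
      linarith
    have goal' := fun X Y hP hQ hXY => fin
      (((e₁ : ℝ) + iz (s < a₁) - iz (s < d₁)) + ((e₂ : ℝ) + iz (s < c₁) - iz (s < b₁)) +
        ((e₃ : ℝ) + iz (s < a₂) - iz (s < d₂)) + ((e₄ : ℝ) + iz (s < c₂) - iz (s < b₂)))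
      (μ * (((e₁ : ℝ) + iz (s < a₁) - iz (s < d₁)) - ((e₂ : ℝ) + iz (s < c₁) - iz (s < b₁))) +
        (1 - μ) * (((e₃ : ℝ) + iz (s < a₂) - iz (s < d₂)) -
          ((e₄ : ℝ) + iz (s < c₂) - iz (s < b₂))) +
        2 * ((e₅ : ℝ) + iz (s < y₁) - iz (s < y₂)) - 1) X Y hP hQ hXY
    have done : (((e₁ : ℝ) + iz (s < a₁) - iz (s < d₁)) + ((e₂ : ℝ) + iz (s < c₁) - iz (s < b₁)) +
        ((e₃ : ℝ) + iz (s < a₂) - iz (s < d₂)) + ((e₄ : ℝ) + iz (s < c₂) - iz (s < b₂))) ^ 2 /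
          (4 * c) ^ 2 +
      (μ * (((e₁ : ℝ) + iz (s < a₁) - iz (s < d₁)) - ((e₂ : ℝ) + iz (s < c₁) - iz (s < b₁))) +
        (1 - μ) * (((e₃ : ℝ) + iz (s < a₂) - iz (s < d₂)) -
          ((e₄ : ℝ) + iz (s < c₂) - iz (s < b₂))) +
        2 * ((e₅ : ℝ) + iz (s < y₁) - iz (s < y₂)) - 1) ^ 2 / (4 * h) ^ 2 ≤ (M / 4) ^ 2 := by
      rw [← div_pow, ← div_pow]
      rcases st with (⟨hP, hQ⟩ | ⟨hP, hQ⟩) | ⟨hP, hQ⟩
      · exact goal' _ _ hP hQ hM1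
      · exact goal' _ _ hP hQ hM2
      · exact goal' _ _ hP hQ hM3
    refine le_trans (le_of_eq ?_) done
    rw [← div_pow, ← div_pow]
    congr 2
    · field_simp
      ring
    · field_simp
      ring

end TriW
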