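import Mathlib

/-!
# Cumulative weights along a curve

If finitely many points of a curve carry vector weights of total `0`, and at every moment the sum of
the weights of the later points has norm at most `M`, then the weighted sum of the points is at most
`M` times the length.
-/

set_option autoImplicit false

noncomputable section

open Finset

namespace TriW

/-- Abel summation. -/
theorem abel (p x : ℕ → ℝ) : ∀ n : ℕ, ∑ j ∈ range (n + 1), p j * x j =
    (∑ j ∈ range (n + 1), p j) * x 0 +
      ∑ j ∈ range n, (∑ k ∈ Finset.Ico (j + 1) (n + 1), p k) * (x (j + 1) - x j)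
  | 0 => by simp
  | (n + 1) => by
    rw [sum_range_succ, abel p x n, sum_range_succ p (n + 1),
      sum_range_succ (fun j => (∑ k ∈ Finset.Ico (j + 1) (n + 1 + 1), p k) * (x (j + 1) - x j))]
    have h1 : ∀ j ∈ range n, (∑ k ∈ Finset.Ico (j + 1) (n + 1 + 1), p k) * (x (j + 1) - x j) =
        (∑ k ∈ Finset.Ico (j + 1) (n + 1), p k) * (x (j + 1) - x j) +
          p (n + 1) * (x (j + 1) - x j) := by
      intro j hj
      rw [Finset.sum_Ico_succ_top (by have := mem_range.1 hj; omega), add_mul]
    rw [sum_congr rfl h1, sum_add_distrib, ← Finset.mul_sum, Finset.sum_range_sub]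
    simp only [Nat.Ico_succ_singleton, sum_singleton]
    ring

variable {γ : unitInterval → ℂ} {l : ℝ}

theorem sum_dist_le (hl : 0 ≤ l) (h : eVariationOn γ Set.univ ≤ ENNReal.ofReal l)
    {u : ℕ → unitInterval} (hu : Monotone u) (n : ℕ) :
    ∑ j ∈ range n, dist (γ (u (j + 1))) (γ (u j)) ≤ l := by
  have h1 := (eVariationOn.sum_le (f := γ) (s := Set.univ) (n := n) hu fun i => Set.mem_univ _).trans h
  have h2 : ∑ i ∈ range n, edist (γ (u (i + 1))) (γ (u i)) =
      ENNReal.ofReal (∑ j ∈ range n, dist (γ (u (j + 1))) (γ (u j))) := by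
    rw [ENNReal.ofReal_sum_of_nonneg fun i _ => dist_nonneg]
    exact sum_congr rfl fun i _ => edist_dist _ _
  rw [h2] at h1
  exact (ENNReal.ofReal_le_ofReal_iff hl).1 h1

theorem cs (a b x y : ℝ) {M : ℝ} (hM : 0 ≤ M) (h : a ^ 2 + b ^ 2 ≤ M ^ 2) :
    a * x + b * y ≤ M * Real.sqrt (x ^ 2 + y ^ 2) := by
  have h1 : (a * x + b * y) ^ 2 ≤ (M * Real.sqrt (x ^ 2 + y ^ 2)) ^ 2 := by
    rw [mul_pow, Real.sq_sqrt (by positivity)]
    nlinarith [sq_nonneg (a * y - b * x), sq_nonneg x, sq_nonneg y]
  exact abs_le_of_sq_le_sq' h1 (by positivity) |>.2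

/-- The main inequality: `t i` times, `(p i, q i)` weights. -/
theorem cumulative (hl : 0 ≤ l) (h : eVariationOn γ Set.univ ≤ ENNReal.ofReal l) {N : ℕ}
    (t : Fin N → unitInterval) (p q : Fin N → ℝ) {M : ℝ} (hM : 0 ≤ M)
    (hp : ∑ i, p i = 0) (hq : ∑ i, q i = 0)
    (hs : ∀ s : unitInterval, (∑ i, if s < t i then p i else 0) ^ 2 +
      (∑ i, if s < t i then q i else 0) ^ 2 ≤ M ^ 2) :
    ∑ i, (p i * (γ (t i)).re + q i * (γ (t i)).im) ≤ M * l := by
  rcases N with _ | n
  · simpa using mul_nonneg hM hl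
  set σ := Tuple.sort t with hσ
  have hmono : Monotone (t ∘ σ) := Tuple.monotone_sort t
  -- extend to `ℕ`
  set c : ℕ → Fin (n + 1) := fun j => ⟨min j n, by omega⟩ with hc
  have hcm : Monotone c := by
    intro a b hab
    simp only [hc, Fin.mk_le_mk]
    omega
  set u : ℕ → unitInterval := fun j => t (σ (c j)) with hu
  have hum : Monotone u := hmono.comp hcm
  have hsum : ∀ f : Fin (n + 1) → ℝ, ∑ i, f i = ∑ j ∈ range (n + 1), f (σ (c j)) := by
    intro f
    rw [← Equiv.sum_comp σ f, Finset.sum_range]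
    refine sum_congr rfl fun i _ => ?_
    congr 2
    ext
    simp only [hc]
    omega
  have hcum : ∀ f : Fin (n + 1) → ℝ, ∀ j < n, u j < u (j + 1) →
      ∑ k ∈ Finset.Ico (j + 1) (n + 1), f (σ (c k)) = ∑ i, if u j < t i then f i else 0 := by
    intro f j hj hlt
    rw [hsum fun i => if u j < t i then f i else 0, ← Finset.sum_filter]
    refine (sum_congr ?_ fun _ _ => rfl)
    ext k
    simp only [Finset.mem_Ico, mem_filter, mem_range]
    constructor
    · rintro ⟨h1, h2⟩
      exact ⟨h2, hlt.trans_le (hum h1)⟩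
    · rintro ⟨h1, h2⟩
      refine ⟨?_, h1⟩
      by_contra hcon
      exact absurd (hum (show k ≤ j by omega)) (not_le.2 h2)
  have e1 : ∑ i, (p i * (γ (t i)).re + q i * (γ (t i)).im) =
      ∑ j ∈ range n, ((∑ k ∈ Finset.Ico (j + 1) (n + 1), p (σ (c k))) *
          ((γ (u (j + 1))).re - (γ (u j)).re) +
        (∑ k ∈ Finset.Ico (j + 1) (n + 1), q (σ (c k))) *
          ((γ (u (j + 1))).im - (γ (u j)).im)) := by
    rw [sum_add_distrib, sum_add_distrib, hsum fun i => p i * (γ (t i)).re,
      hsum fun i => q i * (γ (t i)).im]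
    have := abel (fun j => p (σ (c j))) (fun j => (γ (u j)).re) n
    rw [this, ← hsum p, hp, zero_mul, zero_add]
    have := abel (fun j => q (σ (c j))) (fun j => (γ (u j)).im) n
    rw [this, ← hsum q, hq, zero_mul, zero_add]
  rw [e1]
  calc _ ≤ ∑ j ∈ range n, M * dist (γ (u (j + 1))) (γ (u j)) := by
        refine sum_le_sum fun j hj => ?_
        have hj' := mem_range.1 hj
        rcases (hum (Nat.le_succ j)).eq_or_lt with he | hlt
        · rw [show u (j + 1) = u j from he.symm]
          simp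
        · rw [hcum p j hj' hlt, hcum q j hj' hlt, Complex.dist_eq, Complex.norm_eq_sqrt_sq_add_sq,
            Complex.sub_re, Complex.sub_im]
          exact cs _ _ _ _ hM (hs _)
    _ ≤ M * l := by
        rw [← Finset.mul_sum]
        exact mul_le_mul_of_nonneg_left (sum_dist_le hl h hum n) hM

end TriW
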