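import Mathlib

/-!
# Curves that fit in a triangle: definitions

The plane is `ℂ` with its Euclidean distance.
-/

set_option autoImplicit false

noncomputable section

open Set

namespace TriW

/-- `γ` is a continuous curve of length `l`. -/
structure IsCurve (γ : unitInterval → ℂ) (l : ℝ) : Prop where
  cont : Continuous γ
  len : eVariationOn γ Set.univ = ENNReal.ofReal l

/-- some congruent copy of the curve `γ` lies in `T` -/
def Fits (γ : unitInterval → ℂ) (T : Set ℂ) : Prop := ∃ φ : ℂ ≃ᵢ ℂ, ∀ t, φ (γ t) ∈ T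

/-- the closed triangle with vertices `A`, `B`, `C` -/
def Tri (A B C : ℂ) : Set ℂ := convexHull ℝ {A, B, C}

/-- the largest length `l` such that every curve of length `l` fits in `T` -/
def L (T : Set ℂ) : ℝ := sSup {l : ℝ | 0 ≤ l ∧ ∀ γ, IsCurve γ l → Fits γ T}

theorem Fits.comp {γ : unitInterval → ℂ} {T : Set ℂ} (ψ : ℂ ≃ᵢ ℂ)
    (h : Fits (fun t => ψ (γ t)) T) : Fits γ T := by
  obtain ⟨φ, hφ⟩ := h
  exact ⟨ψ.trans φ, hφ⟩

theorem IsCurve.comp {γ : unitInterval → ℂ} {l : ℝ} (h : IsCurve γ l) (ψ : ℂ ≃ᵢ ℂ) :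
    IsCurve (fun t => ψ (γ t)) l := by
  refine ⟨ψ.continuous.comp h.cont, ?_⟩
  rw [← h.len]
  unfold eVariationOn
  simp only [ψ.edist_eq]

/-! ## A triangle in position -/

/-- `B = A + c e`, `C = A + e ((1 - μ) c ± i h)` -/
structure Pos (A B C : ℂ) (c h μ : ℝ) : Prop where
  c_pos : 0 < c
  h_pos : 0 < h
  ex : ∃ u : Circle, ∃ s : ℝ, (s = 1 ∨ s = -1) ∧ B = A + u * c ∧
    C = A + u * (((1 - μ) * c : ℝ) + (s * h : ℝ) * Complex.I)

theorem bary {A B C : ℂ} {x y z : ℝ} (hx : 0 ≤ x) (hy : 0 ≤ y) (hz : 0 ≤ z) (h : x + y + z = 1) :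
    (x : ℂ) * A + y * B + z * C ∈ Tri A B C := by
  have := (convex_convexHull ℝ ({A, B, C} : Set ℂ)).sum_mem (t := Finset.univ) (w := ![x, y, z])
    (z := ![A, B, C]) (by intro i _; fin_cases i <;> simpa) (by simp [Fin.sum_univ_three, h])
    (by intro i _; apply subset_convexHull; fin_cases i <;> simp)
  simpa [Fin.sum_univ_three, Tri] using this

/-- Placement in a triangle. -/
theorem place {A B C : ℂ} {c h μ : ℝ} (H : Pos A B C c h μ) {γ : unitInterval → ℂ}
    {m₁ m₂ m₃ : ℝ} (h1 : ∀ t, (γ t).re / c + μ * ((γ t).im / h) ≤ m₁)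
    (h2 : ∀ t, -((γ t).re / c) + (1 - μ) * ((γ t).im / h) ≤ m₂)
    (h3 : ∀ t, -((γ t).im / h) ≤ m₃) (hm : m₁ + m₂ + m₃ ≤ 1) : Fits γ (Tri A B C) := by
  obtain ⟨u, s, hs, hB, hC⟩ := H.ex
  have hc := H.c_pos
  have hh := H.h_pos
  set d : ℂ := ((c * (m₂ + (1 - μ) * m₃) : ℝ) : ℂ) + ((m₃ * h : ℝ) : ℂ) * Complex.I with hd
  -- the isometry
  obtain ⟨J, hJ⟩ : ∃ J : ℂ ≃ᵢ ℂ, ∀ z, J z = (z.re : ℂ) + ((s * z.im : ℝ) : ℂ) * Complex.I := by
    rcases hs with rfl | rfl
    · refine ⟨IsometryEquiv.refl ℂ, fun z => ?_⟩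
      change z = _
      apply Complex.ext <;> simp
    · refine ⟨Complex.conjLIE.toIsometryEquiv, fun z => ?_⟩
      change (starRingEnd ℂ) z = _
      apply Complex.ext <;> simp
  refine ⟨(IsometryEquiv.addRight d).trans (J.trans ((rotation u).toIsometryEquiv.trans
    (IsometryEquiv.addLeft A))), fun t => ?_⟩
  change A + u * J (γ t + d) ∈ _
  rw [hJ]
  set x := (γ t).re with hx
  set y := (γ t).im with hy
  have e1 : (γ t + d).re = x + c * (m₂ + (1 - μ) * m₃) := by simp [hd, hx]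
  have e2 : (γ t + d).im = y + m₃ * h := by simp [hd, hy]
  rw [e1, e2]
  set β := y / h + m₃ with hβ
  set α := x / c + m₂ + (1 - μ) * m₃ with hα
  have k1 : 0 ≤ β := by have := h3 t; rw [hβ]; linarith
  have k2 : 0 ≤ α - (1 - μ) * β := by
    have := h2 t
    rw [hα, hβ]
    linarith
  have k3 : 0 ≤ 1 - α - μ * β := by
    have := h1 t
    rw [hα, hβ]
    linarith
  have := bary (A := A) (B := B) (C := C) k3 k2 k1 (by ring)
  convert this using 1
  rw [hB, hC]
  have e3 : x + c * (m₂ + (1 - μ) * m₃) = c * α := by rw [hα]; field_simp; ring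
  have e4 : y + m₃ * h = h * β := by rw [hβ]; field_simp
  rw [e3, e4]
  push_cast
  ring

/-- Every triangle is in position. -/
theorem pos_of_dist {A B C : ℂ} {a b c S : ℝ} (ha : dist B C = a) (hb : dist C A = b)
    (hc : dist A B = c) (hS : S = Real.sqrt ((a + b + c) * (-a + b + c) * (a - b + c) * (a + b - c)))
    (hS0 : 0 < S) (hc0 : 0 < c) :
    Pos A B C c (S / (2 * c)) ((a ^ 2 + c ^ 2 - b ^ 2) / (2 * c ^ 2)) := by
  refine ⟨hc0, by positivity, ?_⟩
  have hn : ‖(B - A) / c‖ = 1 := by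
    rw [norm_div, Complex.norm_real, Real.norm_of_nonneg hc0.le, ← Complex.dist_eq, dist_comm, hc]
    exact div_self hc0.ne'
  set u : Circle := ⟨(B - A) / c, mem_sphere_zero_iff_norm.2 hn⟩ with hu
  have hu1 : (u : ℂ) = (B - A) / c := rfl
  have hcc : (c : ℂ) ≠ 0 := by exact_mod_cast hc0.ne'
  have hB : B = A + u * c := by rw [hu1]; field_simp; ring
  have hune : (u : ℂ) ≠ 0 := u.coe_ne_zero
  set w : ℂ := (C - A) / u with hw
  have hCw : C = A + u * w := by rw [hw]; field_simp; ring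
  have hun : ‖(u : ℂ)‖ = 1 := u.norm_coe
  have hb2 : b ^ 2 = w.re ^ 2 + w.im ^ 2 := by
    rw [← hb, dist_eq_norm, hCw, show A + u * w - A = u * w by ring, norm_mul, hun, one_mul,
      Complex.sq_norm, Complex.normSq_apply]
    ring
  have ha2 : a ^ 2 = (w.re - c) ^ 2 + w.im ^ 2 := by
    rw [← ha, dist_eq_norm, hCw, hB, show A + u * c - (A + u * w) = u * (c - w) by ring, norm_mul,
      hun, one_mul, Complex.sq_norm, Complex.normSq_apply]
    simp only [Complex.sub_re, Complex.ofReal_re, Complex.sub_im, Complex.ofReal_im]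
    ring
  have hX : w.re = (1 - (a ^ 2 + c ^ 2 - b ^ 2) / (2 * c ^ 2)) * c := by
    have : 2 * c * w.re = b ^ 2 + c ^ 2 - a ^ 2 := by rw [ha2, hb2]; ring
    field_simp
    linarith
  have hpos : 0 ≤ (a + b + c) * (-a + b + c) * (a - b + c) * (a + b - c) := by
    by_contra hcon
    rw [Real.sqrt_eq_zero_of_nonpos (not_le.1 hcon).le] at hS
    exact hS0.ne' hS
  have hS2 : S ^ 2 = 4 * c ^ 2 * w.im ^ 2 := by
    rw [hS, Real.sq_sqrt hpos]
    have : (a + b + c) * (-a + b + c) * (a - b + c) * (a + b - c) =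
        4 * b ^ 2 * c ^ 2 - (b ^ 2 + c ^ 2 - a ^ 2) ^ 2 := by ring
    rw [this, show b ^ 2 + c ^ 2 - a ^ 2 = 2 * c * w.re by rw [ha2, hb2]; ring, hb2]
    ring
  have hY : |w.im| = S / (2 * c) := by
    have h1 : (2 * c * |w.im|) ^ 2 = S ^ 2 := by rw [hS2, mul_pow, sq_abs]; ring
    have h2 : 2 * c * |w.im| = S :=
      (pow_left_inj₀ (by positivity) hS0.le (two_ne_zero)).1 h1
    rw [← h2]
    field_simp
  refine ⟨u, if 0 ≤ w.im then 1 else -1, by split_ifs <;> simp, hB, ?_⟩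
  rw [hCw, ← hX, ← hY]
  congr 2
  split_ifs with h0
  · rw [abs_of_nonneg h0]
    apply Complex.ext <;> simp
  · rw [abs_of_neg (not_le.1 h0)]
    apply Complex.ext <;> simp

end TriW
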