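import Mathlib

/-!
# The alternating strip of a curve

Every continuous curve has a direction in which it meets one boundary line of its strip, then the
other one, then the first one again.
-/

set_option autoImplicit false

noncomputable section

open Set

namespace TriW

variable {γ : unitInterval → ℂ}

/-- height in the frame rotated by `θ` -/
def Y (γ : unitInterval → ℂ) (θ : ℝ) (t : unitInterval) : ℝ :=
  Real.cos θ * (γ t).im + Real.sin θ * (γ t).re

theorem Y_add_pi (θ : ℝ) (t : unitInterval) : Y γ (θ + Real.pi) t = -Y γ θ t := by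
  unfold Y
  rw [Real.cos_add_pi, Real.sin_add_pi]
  ring

theorem rot_im (θ : ℝ) (t : unitInterval) :
    ((rotation (Circle.exp θ)).toIsometryEquiv (γ t)).im = Y γ θ t := by
  change ((rotation (Circle.exp θ)) (γ t)).im = Y γ θ t
  rw [rotation_apply, Circle.coe_exp, Complex.mul_im, Complex.exp_ofReal_mul_I_re,
    Complex.exp_ofReal_mul_I_im]
  rfl

/-- the closed set of `(θ, a, b)`: `a` highest, `b` lowest -/
def K (γ : unitInterval → ℂ) : Set (ℝ × (unitInterval × unitInterval)) :=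
  {p | ∀ t, Y γ p.1 t ≤ Y γ p.1 p.2.1 ∧ Y γ p.1 p.2.2 ≤ Y γ p.1 t}

theorem continuous_Y (hγ : Continuous γ) : Continuous fun p : ℝ × unitInterval => Y γ p.1 p.2 := by
  unfold Y
  exact ((Real.continuous_cos.comp continuous_fst).mul
    (Complex.continuous_im.comp (hγ.comp continuous_snd))).add
    ((Real.continuous_sin.comp continuous_fst).mul
    (Complex.continuous_re.comp (hγ.comp continuous_snd)))

theorem isClosed_K (hγ : Continuous γ) : IsClosed (K γ) := by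
  have hY := continuous_Y hγ
  have h1 : ∀ t, Continuous fun p : ℝ × (unitInterval × unitInterval) => Y γ p.1 t := fun t =>
    hY.comp (continuous_fst.prodMk continuous_const)
  have h2 : Continuous fun p : ℝ × (unitInterval × unitInterval) => Y γ p.1 p.2.1 :=
    hY.comp (continuous_fst.prodMk (continuous_fst.comp continuous_snd))
  have h3 : Continuous fun p : ℝ × (unitInterval × unitInterval) => Y γ p.1 p.2.2 :=
    hY.comp (continuous_fst.prodMk (continuous_snd.comp continuous_snd))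
  have e : K γ = ⋂ t, ({p | Y γ p.1 t ≤ Y γ p.1 p.2.1} ∩ {p | Y γ p.1 p.2.2 ≤ Y γ p.1 t}) := by
    ext p
    simp only [mem_iInter]
    exact Iff.rfl
  rw [e]
  exact isClosed_iInter fun t => (isClosed_le (h1 t) h2).inter (isClosed_le h3 (h1 t))

theorem exists_K (hγ : Continuous γ) (θ : ℝ) : ∃ a b, (θ, (a, b)) ∈ K γ := by
  have hY : Continuous fun t => Y γ θ t :=
    (continuous_Y hγ).comp (continuous_const.prodMk continuous_id)
  obtain ⟨a, -, ha⟩ := isCompact_univ.exists_isMaxOn ⟨(0 : unitInterval), mem_univ _⟩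
    hY.continuousOn
  obtain ⟨b, -, hb⟩ := isCompact_univ.exists_isMinOn ⟨(0 : unitInterval), mem_univ _⟩
    hY.continuousOn
  exact ⟨a, b, fun t => ⟨ha (mem_univ t), hb (mem_univ t)⟩⟩

theorem K_add_pi {θ : ℝ} {a b : unitInterval} (h : (θ, (a, b)) ∈ K γ) :
    (θ + Real.pi, (b, a)) ∈ K γ := by
  intro t
  have := h t
  simp only [Y_add_pi]
  exact ⟨neg_le_neg this.2, neg_le_neg this.1⟩

/-- The alternating strip. -/
theorem strip (hγ : Continuous γ) : ∃ φ : ℂ ≃ᵢ ℂ, ∃ t₁ t₂ t₃ : unitInterval, t₁ ≤ t₂ ∧ t₂ ≤ t₃ ∧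
    (∀ t, (φ (γ t₁)).im ≤ (φ (γ t)).im) ∧ (∀ t, (φ (γ t₃)).im ≤ (φ (γ t)).im) ∧
    ∀ t, (φ (γ t)).im ≤ (φ (γ t₂)).im := by
  suffices h : ∃ θ : ℝ, ∃ t₁ t₂ t₃ : unitInterval, t₁ ≤ t₂ ∧ t₂ ≤ t₃ ∧
      (∀ t, Y γ θ t₁ ≤ Y γ θ t) ∧ (∀ t, Y γ θ t₃ ≤ Y γ θ t) ∧ ∀ t, Y γ θ t ≤ Y γ θ t₂ by
    obtain ⟨θ, t₁, t₂, t₃, h1, h2, h3, h4, h5⟩ := h
    refine ⟨(rotation (Circle.exp θ)).toIsometryEquiv, t₁, t₂, t₃, h1, h2, ?_, ?_, ?_⟩
    · intro t
      rw [rot_im, rot_im]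
      exact h3 t
    · intro t
      rw [rot_im, rot_im]
      exact h4 t
    · intro t
      rw [rot_im, rot_im]
      exact h5 t
  set F₁ : Set ℝ := Prod.fst '' (K γ ∩ {p | p.2.2 ≤ p.2.1}) with hF₁
  set F₂ : Set ℝ := Prod.fst '' (K γ ∩ {p | p.2.1 ≤ p.2.2}) with hF₂
  have c1 : IsClosed F₁ := by
    refine isClosedMap_fst_of_compactSpace _ ((isClosed_K hγ).inter ?_)
    exact isClosed_le (continuous_snd.comp continuous_snd) (continuous_fst.comp continuous_snd)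
  have c2 : IsClosed F₂ := by
    refine isClosedMap_fst_of_compactSpace _ ((isClosed_K hγ).inter ?_)
    exact isClosed_le (continuous_fst.comp continuous_snd) (continuous_snd.comp continuous_snd)
  have cov : (univ : Set ℝ) ⊆ F₁ ∪ F₂ := by
    intro θ _
    obtain ⟨a, b, hab⟩ := exists_K hγ θ
    rcases le_total b a with h | h
    · exact Or.inl ⟨_, ⟨hab, h⟩, rfl⟩
    · exact Or.inr ⟨_, ⟨hab, h⟩, rfl⟩
  have n12 : F₁.Nonempty ∧ F₂.Nonempty := by
    obtain ⟨a, b, hab⟩ := exists_K hγ 0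
    rcases le_total b a with h | h
    · exact ⟨⟨_, _, ⟨hab, h⟩, rfl⟩, ⟨_, _, ⟨K_add_pi hab, h⟩, rfl⟩⟩
    · exact ⟨⟨_, _, ⟨K_add_pi hab, h⟩, rfl⟩, ⟨_, _, ⟨hab, h⟩, rfl⟩⟩
  obtain ⟨θ, -, ⟨⟨θ₁, a, b⟩, ⟨hab, h1⟩, e1⟩, ⟨⟨θ₂, a', b'⟩, ⟨hab', h2⟩, e2⟩⟩ :=
    isPreconnected_closed_iff.1 isPreconnected_univ F₁ F₂ c1 c2 cov
      (by rw [univ_inter]; exact n12.1) (by rw [univ_inter]; exact n12.2)
  obtain rfl : θ₁ = θ := e1
  obtain rfl : θ₂ = θ₁ := e2
  change b ≤ a at h1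
  change a' ≤ b' at h2
  rcases le_or_gt a' b with h | h
  · refine ⟨θ₂ + Real.pi, a', b, a, h, h1, fun t => ?_, fun t => ?_, fun t => ?_⟩
    · exact (K_add_pi hab' t).2
    · exact (K_add_pi hab t).2
    · exact (K_add_pi hab t).1
  · exact ⟨θ₂, b, a', b', h.le, h2, fun t => (hab t).2, fun t => (hab' t).2, fun t => (hab' t).1⟩

end TriW
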