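import Pool.Agent.TriW.Cum
import Pool.Agent.TriW.Strip
import Pool.Agent.TriW.Defs

/-!
# Fat triangles: every curve of length `6 h c / √(c² + 36 h²)` fits
-/

set_option autoImplicit false

noncomputable section

open Finset

namespace TriW

/-- `0/1` value of a Boolean -/
def bz (b : Bool) : ℤ := if b then 1 else 0

theorem states : ∀ a₁ a₂ b₁ b₂ c₁ c₂ d₁ d₂ r : Bool,
    15 * (2 * (bz a₁ + bz a₂ - bz b₁ - bz b₂) + (bz c₁ + bz c₂ - bz d₁ - bz d₂)) ^ 2 +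
      (2 * (bz a₁ + bz b₁) + 10 * (bz a₂ + bz b₂) - (bz c₁ + bz d₁) - 5 * (bz c₂ + bz d₂)
        - 12 * bz r) ^ 2 ≤ 576 := by
  decide

theorem states_p : ∀ a₁ a₂ b₁ b₂ c₁ c₂ d₁ d₂ : Bool,
    (2 * (bz a₁ + bz a₂ - bz b₁ - bz b₂) + (bz c₁ + bz c₂ - bz d₁ - bz d₂)) ^ 2 ≤ 36 := by
  decide

theorem final_ineq {c h P Q : ℝ} (hc : 0 < c) (hh : 0 < h) (hch : 5 * c ^ 2 ≤ 12 * h ^ 2)
    (h1 : P ^ 2 ≤ 1) (h2 : P ^ 2 + 12 / 5 * Q ^ 2 ≤ 16 / 15) :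
    (P / c) ^ 2 + (Q / h) ^ 2 ≤ 1 / c ^ 2 + 1 / (36 * h ^ 2) := by
  have h3 : P ^ 2 * h ^ 2 + Q ^ 2 * c ^ 2 ≤ h ^ 2 + c ^ 2 / 36 := by
    have hh2 : 0 ≤ h ^ 2 := sq_nonneg h
    have hc2 : 0 ≤ c ^ 2 := sq_nonneg c
    rcases le_or_gt (Q ^ 2) (1 / 36) with hq | hq
    · nlinarith [mul_nonneg (sub_nonneg.2 hq) hc2, mul_nonneg (sub_nonneg.2 h1) hh2]
    · nlinarith [mul_nonneg (sub_nonneg.2 hq.le) (sub_nonneg.2 hch),
        mul_nonneg (sub_nonneg.2 h2) hh2]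
  have e1 : (P / c) ^ 2 + (Q / h) ^ 2 = (P ^ 2 * h ^ 2 + Q ^ 2 * c ^ 2) / (c ^ 2 * h ^ 2) := by
    field_simp
  have e2 : 1 / c ^ 2 + 1 / (36 * h ^ 2) = (h ^ 2 + c ^ 2 / 36) / (c ^ 2 * h ^ 2) := by
    field_simp
  rw [e1, e2]
  exact div_le_div_of_nonneg_right h3 (by positivity)

/-- signed functional `σ x / c + k y / h` -/
def F (γ : unitInterval → ℂ) (c h σ k : ℝ) (t : unitInterval) : ℝ :=
  σ * ((γ t).re / c) + k * ((γ t).im / h)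

theorem continuous_F {γ : unitInterval → ℂ} (hγ : Continuous γ) (c h σ k : ℝ) :
    Continuous (F γ c h σ k) := by
  unfold F
  exact (continuous_const.mul ((Complex.continuous_re.comp hγ).div_const c)).add
    (continuous_const.mul ((Complex.continuous_im.comp hγ).div_const h))

theorem exists_max {γ : unitInterval → ℂ} (hγ : Continuous γ) (c h σ k : ℝ) :
    ∃ s, ∀ t, F γ c h σ k t ≤ F γ c h σ k s := by
  obtain ⟨s, -, hs⟩ := isCompact_univ.exists_isMaxOn ⟨(0 : unitInterval), Set.mem_univ _⟩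
    (continuous_F hγ c h σ k).continuousOn
  exact ⟨s, fun t => hs (Set.mem_univ t)⟩

/-- The four placements: if the curve does not fit then all four sums exceed `1`. -/
theorem placements {A B C : ℂ} {c h μ : ℝ} (H : Pos A B C c h μ) {γ : unitInterval → ℂ}
    (hn : ¬Fits γ (Tri A B C)) {σ τ : ℝ} (hσ : σ = 1 ∨ σ = -1) (hτ : τ = 1 ∨ τ = -1)
    {m₁ m₂ m₃ : ℝ} (h1 : ∀ t, F γ c h σ (τ * μ) t ≤ m₁)
    (h2 : ∀ t, F γ c h (-σ) (τ * (1 - μ)) t ≤ m₂) (h3 : ∀ t, F γ c h 0 (-τ) t ≤ m₃) :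
    1 < m₁ + m₂ + m₃ := by
  by_contra hm
  rw [not_lt] at hm
  apply hn
  obtain ⟨J, hJr, hJi⟩ : ∃ J : ℂ ≃ᵢ ℂ, (∀ z, (J z).re = σ * z.re) ∧ ∀ z, (J z).im = τ * z.im := by
    rcases hσ with rfl | rfl <;> rcases hτ with rfl | rfl
    · exact ⟨IsometryEquiv.refl ℂ, fun z => (one_mul _).symm, fun z => (one_mul _).symm⟩
    · refine ⟨Complex.conjLIE.toIsometryEquiv, fun z => ?_, fun z => ?_⟩
      · change ((starRingEnd ℂ) z).re = _
        simp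
      · change ((starRingEnd ℂ) z).im = _
        simp
    · refine ⟨Complex.conjLIE.toIsometryEquiv.trans (LinearIsometryEquiv.neg ℝ).toIsometryEquiv,
        fun z => ?_, fun z => ?_⟩
      · change (-(starRingEnd ℂ) z).re = _
        simp
      · change (-(starRingEnd ℂ) z).im = _
        simp
    · refine ⟨(LinearIsometryEquiv.neg ℝ).toIsometryEquiv, fun z => ?_, fun z => ?_⟩
      · change (-z).re = _
        simp
      · change (-z).im = _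
        simp
  refine Fits.comp J (place H (m₁ := m₁) (m₂ := m₂) (m₃ := m₃) (fun t => ?_) (fun t => ?_)
    (fun t => ?_) hm)
  · refine le_trans (le_of_eq ?_) (h1 t)
    unfold F
    rw [hJr, hJi]
    ring
  · refine le_trans (le_of_eq ?_) (h2 t)
    unfold F
    rw [hJr, hJi]
    ring
  · refine le_trans (le_of_eq ?_) (h3 t)
    unfold F
    rw [hJi]
    ring

open Classical in
/-- `0/1` value of a proposition -/
def iz (P : Prop) : ℤ := if P then 1 else 0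

theorem iz_pos {P : Prop} (h : P) : iz P = 1 := if_pos h

theorem iz_neg {P : Prop} (h : ¬P) : iz P = 0 := if_neg h

theorem iz_bool (P : Prop) : ∃ b : Bool, iz P = bz b := by
  by_cases h : P
  · exact ⟨true, by rw [iz_pos h]; rfl⟩
  · exact ⟨false, by rw [iz_neg h]; rfl⟩

theorem ite_iz (P : Prop) [Decidable P] (x : ℝ) :
    (if P then x else 0) = ((iz P : ℤ) : ℝ) * x := by
  by_cases h : P
  · simp [h, iz_pos]
  · simp [h, iz_neg]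

theorem convex_sq {x y P m : ℝ} (hm0 : 1 / 6 ≤ m) (hm1 : m ≤ 5 / 6)
    (hx : P ^ 2 + 12 / 5 * x ^ 2 ≤ 16 / 15) (hy : P ^ 2 + 12 / 5 * y ^ 2 ≤ 16 / 15) :
    P ^ 2 + 12 / 5 * ((5 / 4 - 3 / 2 * m) * x + (3 / 2 * m - 1 / 4) * y) ^ 2 ≤ 16 / 15 := by
  have h1 : 0 ≤ 5 / 4 - 3 / 2 * m := by linarith
  have h2 : 0 ≤ 3 / 2 * m - 1 / 4 := by linarith
  nlinarith [mul_nonneg h1 h2, sq_nonneg (x - y), mul_nonneg (mul_nonneg h1 h2) (sq_nonneg (x - y)),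
    mul_nonneg h1 (sub_nonneg.2 hx), mul_nonneg h2 (sub_nonneg.2 hy)]

/-- Fat triangles. -/
theorem fat {A B C : ℂ} {c h μ : ℝ} (H : Pos A B C c h μ) (hμ0 : 1 / 6 ≤ μ) (hμ1 : μ ≤ 5 / 6)
    (hch : 5 * c ^ 2 ≤ 12 * h ^ 2) {γ : unitInterval → ℂ} {l : ℝ} (hl0 : 0 ≤ l)
    (hl : l ≤ 6 * h * c / Real.sqrt (c ^ 2 + 36 * h ^ 2)) (hγ : IsCurve γ l) :
    Fits γ (Tri A B C) := by
  obtain ⟨φ, t₁, t₂, t₃, h12, h23, hm1, hm3, hM2⟩ := strip hγ.cont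
  refine Fits.comp φ ?_
  have hγ' := hγ.comp φ
  generalize hg : (fun t => φ (γ t)) = g at *
  have hm1' : ∀ t, (g t₁).im ≤ (g t).im := by intro t; rw [← hg]; exact hm1 t
  have hm3' : ∀ t, (g t₃).im ≤ (g t).im := by intro t; rw [← hg]; exact hm3 t
  have hM2' : ∀ t, (g t).im ≤ (g t₂).im := by intro t; rw [← hg]; exact hM2 t
  by_contra hn
  have hc := H.c_pos
  have hh := H.h_pos
  obtain ⟨a₁, ha₁⟩ := exists_max hγ'.cont c h 1 μ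
  obtain ⟨a₂, ha₂⟩ := exists_max hγ'.cont c h 1 (1 - μ)
  obtain ⟨b₁, hb₁⟩ := exists_max hγ'.cont c h (-1) μ
  obtain ⟨b₂, hb₂⟩ := exists_max hγ'.cont c h (-1) (1 - μ)
  obtain ⟨c₁, hc₁⟩ := exists_max hγ'.cont c h 1 (-μ)
  obtain ⟨c₂, hc₂⟩ := exists_max hγ'.cont c h 1 (-(1 - μ))
  obtain ⟨d₁, hd₁⟩ := exists_max hγ'.cont c h (-1) (-μ)
  obtain ⟨d₂, hd₂⟩ := exists_max hγ'.cont c h (-1) (-(1 - μ))
  have e13 : (g t₁).im = (g t₃).im := le_antisymm (hm1' t₃) (hm3' t₁)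
  have hlow : ∀ t, F g c h 0 (-1) t ≤ -((g t₁).im / h) := by
    intro t
    unfold F
    have := div_le_div_of_nonneg_right (hm1' t) hh.le
    linarith
  have hhigh : ∀ t, F g c h 0 1 t ≤ (g t₂).im / h := by
    intro t
    unfold F
    have := div_le_div_of_nonneg_right (hM2' t) hh.le
    linarith
  have k1 := placements H hn (σ := 1) (τ := 1) (Or.inl rfl) (Or.inl rfl)
    (m₁ := F g c h 1 μ a₁) (m₂ := F g c h (-1) (1 - μ) b₂)
    (by rwa [one_mul]) (by rwa [one_mul]) hlow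
  have k2 := placements H hn (σ := -1) (τ := 1) (Or.inr rfl) (Or.inl rfl)
    (m₁ := F g c h (-1) μ b₁) (m₂ := F g c h 1 (1 - μ) a₂)
    (by rwa [one_mul]) (by rwa [one_mul, neg_neg]) hlow
  have k3 := placements H hn (σ := 1) (τ := -1) (Or.inl rfl) (Or.inr rfl)
    (m₁ := F g c h 1 (-μ) c₁) (m₂ := F g c h (-1) (-(1 - μ)) d₂)
    (by rwa [neg_one_mul]) (by rwa [neg_one_mul]) (by rwa [neg_neg])
  have k4 := placements H hn (σ := -1) (τ := -1) (Or.inr rfl) (Or.inr rfl)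
    (m₁ := F g c h (-1) (-μ) d₁) (m₂ := F g c h 1 (-(1 - μ)) c₂)
    (by rwa [neg_one_mul]) (by rwa [neg_one_mul, neg_neg]) (by rwa [neg_neg])
  set D := Real.sqrt (c ^ 2 + 36 * h ^ 2) with hD
  have hD0 : 0 < D := Real.sqrt_pos.2 (by positivity)
  have hD2 : D ^ 2 = c ^ 2 + 36 * h ^ 2 := Real.sq_sqrt (by positivity)
  have key := cumulative hl0 hγ'.len.le
    ![a₁, a₂, b₁, b₂, c₁, c₂, d₁, d₂, t₁, t₂, t₃]
    ![1 / (3 * c), 1 / (3 * c), -1 / (3 * c), -1 / (3 * c), 1 / (6 * c), 1 / (6 * c), -1 / (6 * c),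
      -1 / (6 * c), 0, 0, 0]
    ![μ / (3 * h), (1 - μ) / (3 * h), μ / (3 * h), (1 - μ) / (3 * h), -μ / (6 * h),
      -(1 - μ) / (6 * h), -μ / (6 * h), -(1 - μ) / (6 * h), -1 / (3 * h), 1 / (3 * h), -1 / (3 * h)]
    (M := D / (6 * h * c)) (by positivity)
    (by simp [Fin.sum_univ_succ]; ring) (by simp [Fin.sum_univ_succ]; ring) ?_
  · have hMl : D / (6 * h * c) * l ≤ 1 := by
      calc D / (6 * h * c) * l ≤ D / (6 * h * c) * (6 * h * c / D) :=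
            mul_le_mul_of_nonneg_left hl (by positivity)
        _ = 1 := by field_simp
    have : 1 < ∑ i, (![1 / (3 * c), 1 / (3 * c), -1 / (3 * c), -1 / (3 * c), 1 / (6 * c),
        1 / (6 * c), -1 / (6 * c), -1 / (6 * c), 0, 0, 0] i *
          (g (![a₁, a₂, b₁, b₂, c₁, c₂, d₁, d₂, t₁, t₂, t₃] i)).re +
        ![μ / (3 * h), (1 - μ) / (3 * h), μ / (3 * h), (1 - μ) / (3 * h), -μ / (6 * h),
      -(1 - μ) / (6 * h), -μ / (6 * h), -(1 - μ) / (6 * h), -1 / (3 * h), 1 / (3 * h),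
      -1 / (3 * h)] i * (g (![a₁, a₂, b₁, b₂, c₁, c₂, d₁, d₂, t₁, t₂, t₃] i)).im) := by
      have hs : 1 < 1 / 3 * (F g c h 1 μ a₁ + F g c h (-1) (1 - μ) b₂ + -((g t₁).im / h)) +
          1 / 3 * (F g c h (-1) μ b₁ + F g c h 1 (1 - μ) a₂ + -((g t₁).im / h)) +
          1 / 6 * (F g c h 1 (-μ) c₁ + F g c h (-1) (-(1 - μ)) d₂ + (g t₂).im / h) +
          1 / 6 * (F g c h (-1) (-μ) d₁ + F g c h 1 (-(1 - μ)) c₂ + (g t₂).im / h) := by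
        linarith
      refine hs.trans_eq ?_
      simp only [Fin.sum_univ_succ, F]
      simp
      rw [← e13]
      field_simp
      ring
    linarith
  · intro s
    have hR : ∃ r : Bool, iz (s < t₁) - iz (s < t₂) + iz (s < t₃) = bz r := by
      by_cases h1 : s < t₁
      · have h2 := h1.trans_le h12
        have h3 := h2.trans_le h23
        exact ⟨true, by rw [iz_pos h1, iz_pos h2, iz_pos h3]; rfl⟩
      · by_cases h2 : s < t₂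
        · have h3 := h2.trans_le h23
          exact ⟨false, by rw [iz_neg h1, iz_pos h2, iz_pos h3]; rfl⟩
        · by_cases h3 : s < t₃
          · exact ⟨true, by rw [iz_neg h1, iz_neg h2, iz_pos h3]; rfl⟩
          · exact ⟨false, by rw [iz_neg h1, iz_neg h2, iz_neg h3]; rfl⟩
    obtain ⟨r, hr⟩ := hR
    have hr' : ((iz (s < t₁) : ℤ) : ℝ) - iz (s < t₂) + iz (s < t₃) = bz r := by exact_mod_cast hr
    obtain ⟨A₁, hA₁⟩ := iz_bool (s < a₁)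
    obtain ⟨A₂, hA₂⟩ := iz_bool (s < a₂)
    obtain ⟨B₁, hB₁⟩ := iz_bool (s < b₁)
    obtain ⟨B₂, hB₂⟩ := iz_bool (s < b₂)
    obtain ⟨C₁, hC₁⟩ := iz_bool (s < c₁)
    obtain ⟨C₂, hC₂⟩ := iz_bool (s < c₂)
    obtain ⟨D₁, hD₁⟩ := iz_bool (s < d₁)
    obtain ⟨D₂, hD₂⟩ := iz_bool (s < d₂)
    have hst := states A₁ A₂ B₁ B₂ C₁ C₂ D₁ D₂ r
    have hst' := states A₂ A₁ B₂ B₁ C₂ C₁ D₂ D₁ r
    simp only [Fin.sum_univ_succ]
    simp only [Matrix.cons_val_zero, Matrix.cons_val_succ, Fin.sum_univ_zero, add_zero]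
    simp only [ite_iz, hA₁, hA₂, hB₁, hB₂, hC₁, hC₂, hD₁, hD₂]
    have hp := states_p A₁ A₂ B₁ B₂ C₁ C₂ D₁ D₂
    have hst1 : (15 * (2 * ((bz A₁ : ℝ) + bz A₂ - bz B₁ - bz B₂) +
        ((bz C₁ : ℝ) + bz C₂ - bz D₁ - bz D₂)) ^ 2 +
        (2 * ((bz A₁ : ℝ) + bz B₁) + 10 * ((bz A₂ : ℝ) + bz B₂) - ((bz C₁ : ℝ) + bz D₁) -
          5 * ((bz C₂ : ℝ) + bz D₂) - 12 * bz r) ^ 2) ≤ 576 := by exact_mod_cast hst
    have hst2 : (15 * (2 * ((bz A₂ : ℝ) + bz A₁ - bz B₂ - bz B₁) +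
        ((bz C₂ : ℝ) + bz C₁ - bz D₂ - bz D₁)) ^ 2 +
        (2 * ((bz A₂ : ℝ) + bz B₂) + 10 * ((bz A₁ : ℝ) + bz B₁) - ((bz C₂ : ℝ) + bz D₂) -
          5 * ((bz C₁ : ℝ) + bz D₁) - 12 * bz r) ^ 2) ≤ 576 := by exact_mod_cast hst'
    have hp1 : (2 * ((bz A₁ : ℝ) + bz A₂ - bz B₁ - bz B₂) +
        ((bz C₁ : ℝ) + bz C₂ - bz D₁ - bz D₂)) ^ 2 ≤ 36 := by exact_mod_cast hp
    generalize (bz A₁ : ℝ) = α₁ at *
    generalize (bz A₂ : ℝ) = α₂ at *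
    generalize (bz B₁ : ℝ) = β₁ at *
    generalize (bz B₂ : ℝ) = β₂ at *
    generalize (bz C₁ : ℝ) = γ₁ at *
    generalize (bz C₂ : ℝ) = γ₂ at *
    generalize (bz D₁ : ℝ) = δ₁ at *
    generalize (bz D₂ : ℝ) = δ₂ at *
    generalize (bz r : ℝ) = ρ at *
    set P : ℝ := (2 * (α₁ + α₂ - β₁ - β₂) + (γ₁ + γ₂ - δ₁ - δ₂)) / 6 with hP
    set q₁ : ℝ := (2 * (α₁ + β₁) + 10 * (α₂ + β₂) - (γ₁ + δ₁) - 5 * (γ₂ + δ₂) - 12 * ρ) / 36 with hq₁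
    set q₂ : ℝ := (2 * (α₂ + β₂) + 10 * (α₁ + β₁) - (γ₂ + δ₂) - 5 * (γ₁ + δ₁) - 12 * ρ) / 36 with hq₂
    have x1 : P ^ 2 ≤ 1 := by rw [hP]; linarith
    have x2 : P ^ 2 + 12 / 5 * q₁ ^ 2 ≤ 16 / 15 := by rw [hP, hq₁]; linarith
    have x3 : P ^ 2 + 12 / 5 * q₂ ^ 2 ≤ 16 / 15 := by rw [hP, hq₂]; linarith
    have x4 := convex_sq hμ0 hμ1 x2 x3
    have x5 := final_ineq hc hh hch x1 x4
    have x6 : (D / (6 * h * c)) ^ 2 = 1 / c ^ 2 + 1 / (36 * h ^ 2) := by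
      rw [div_pow, hD2]
      field_simp
      ring
    rw [x6]
    refine le_trans (le_of_eq ?_) x5
    have z1 : (iz (s < t₁) : ℝ) = ρ + iz (s < t₂) - iz (s < t₃) := by linarith
    rw [z1]
    congr 2
    · rw [hP]
      field_simp
      ring
    · rw [hq₁, hq₂]
      field_simp
      ring

end TriW
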