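import Pool.Agent.TriW.Upper
import Pool.Agent.TriW.Cum

/-!
# Flat triangles: the widest curves
-/

set_option autoImplicit false

noncomputable section

open Set

namespace TriW

/-- the largest minimal width of a curve of length `1` -/
def w₀ : ℝ := sSup {w : ℝ | ∃ γ, IsCurve γ 1 ∧
  ∀ u : Circle, ∃ s t : unitInterval, w ≤ ((u : ℂ) * γ s).im - ((u : ℂ) * γ t).im}

theorem IsCurve.dist_le {γ : unitInterval → ℂ} {l : ℝ} (hl : 0 ≤ l) (h : IsCurve γ l)
    (s t : unitInterval) : dist (γ s) (γ t) ≤ l := by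
  have := eVariationOn.edist_le γ (mem_univ s) (mem_univ t)
  rw [h.len, edist_dist] at this
  exact (ENNReal.ofReal_le_ofReal_iff hl).1 this

theorem IsCurve.smul {γ : unitInterval → ℂ} {l : ℝ} (h : IsCurve γ l) {k : ℝ} (hk : 0 < k) :
    IsCurve (fun t => (k : ℂ) * γ t) (k * l) := by
  refine ⟨continuous_const.mul h.cont, ?_⟩
  have lip : ∀ (r : ℝ) (_ : 0 < r) (g : unitInterval → ℂ),
      eVariationOn (fun t => (r : ℂ) * g t) univ ≤ ENNReal.ofReal r * eVariationOn g univ := by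
    intro r hr g
    have hLip : LipschitzWith (Real.toNNReal r) (fun z : ℂ => (r : ℂ) * z) := by
      refine LipschitzWith.of_dist_le_mul fun x y => ?_
      rw [Real.coe_toNNReal r hr.le, dist_eq_norm, ← mul_sub, norm_mul, Complex.norm_real,
        Real.norm_of_nonneg hr.le, dist_eq_norm]
    exact (hLip.lipschitzOnWith (s := univ)).comp_eVariationOn_le (g := g) (s := univ)
      (fun _ _ => mem_univ _)
  have h1 := lip k hk γ
  have h2 := lip k⁻¹ (inv_pos.2 hk) (fun t => (k : ℂ) * γ t)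
  have e : (fun t => ((k⁻¹ : ℝ) : ℂ) * ((k : ℂ) * γ t)) = γ := by
    funext t
    have : (k : ℂ) ≠ 0 := by exact_mod_cast hk.ne'
    push_cast
    field_simp
  rw [e, h.len] at h2
  rw [h.len, ← ENNReal.ofReal_mul hk.le] at h1
  refine le_antisymm h1 ?_
  calc ENNReal.ofReal (k * l) = ENNReal.ofReal k * ENNReal.ofReal l := ENNReal.ofReal_mul hk.le
    _ ≤ ENNReal.ofReal k * (ENNReal.ofReal k⁻¹ * eVariationOn (fun t => (k : ℂ) * γ t) univ) := by
        gcongr
    _ = eVariationOn (fun t => (k : ℂ) * γ t) univ := by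
        rw [← mul_assoc, ← ENNReal.ofReal_mul hk.le, mul_inv_cancel₀ hk.ne', ENNReal.ofReal_one,
          one_mul]

theorem w₀_bdd : BddAbove {w : ℝ | ∃ γ, IsCurve γ 1 ∧
    ∀ u : Circle, ∃ s t : unitInterval, w ≤ ((u : ℂ) * γ s).im - ((u : ℂ) * γ t).im} := by
  refine ⟨1, ?_⟩
  rintro w ⟨γ, hγ, hw⟩
  obtain ⟨s, t, h⟩ := hw 1
  refine h.trans ?_
  have := hγ.dist_le zero_le_one s t
  rw [dist_eq_norm] at this
  simp only [Circle.coe_one, one_mul]
  rw [← Complex.sub_im]
  exact (Complex.im_le_norm _).trans this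

theorem w₀_nonempty : (0 : ℝ) ∈ {w : ℝ | ∃ γ, IsCurve γ 1 ∧
    ∀ u : Circle, ∃ s t : unitInterval, w ≤ ((u : ℂ) * γ s).im - ((u : ℂ) * γ t).im} :=
  ⟨_, isCurve_seg zero_le_one, fun u => ⟨0, 0, by simp⟩⟩

/-- The curve of two segments has width `√3 / 4`. -/
theorem w₀_pos : Real.sqrt 3 / 4 ≤ w₀ := by
  refine le_csSup w₀_bdd ⟨_, isCurve_vee zero_le_one, fun u => ?_⟩
  by_contra hcon
  push Not at hcon
  obtain ⟨d1, d2, d3⟩ := vee_dists (zero_le_one (α := ℝ))
  have hh : ((half : unitInterval) : ℝ) = 1 / 2 := rfl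
  have lt : ∀ s t : unitInterval, |((u : ℂ) * (vee 1 s - vee 1 t)).im| < Real.sqrt 3 / 4 := by
    intro s t
    have h1 := hcon s t
    have h2 := hcon t s
    rw [mul_sub, Complex.sub_im]
    exact abs_lt.2 ⟨by linarith, by linarith⟩
  have m1 := lt half 0
  have m2 := lt 1 half
  have m3 := lt 1 0
  simp only [Set.Icc.coe_zero, Set.Icc.coe_one, hh] at m1 m2 m3
  have nsq : ∀ z : ℂ, (((u : ℂ) * z).re) ^ 2 + (((u : ℂ) * z).im) ^ 2 = ‖z‖ ^ 2 := by
    intro z
    have : ‖(u : ℂ) * z‖ = ‖z‖ := by rw [norm_mul, u.norm_coe, one_mul]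
    rw [← this, Complex.sq_norm, Complex.normSq_apply]
    ring
  have q1 : ‖vee 1 (1 / 2) - vee 1 0‖ = 1 / 2 := by rw [← dist_eq_norm, dist_comm]; exact d1
  have q2 : ‖vee 1 1 - vee 1 (1 / 2)‖ = 1 / 2 := by rw [← dist_eq_norm, dist_comm]; exact d2
  have q3 : ‖vee 1 1 - vee 1 0‖ = 1 / 2 := by rw [← dist_eq_norm]; exact d3
  have n1 := nsq (vee 1 (1 / 2) - vee 1 0)
  have n2 := nsq (vee 1 1 - vee 1 (1 / 2))
  have n3 := nsq (vee 1 1 - vee 1 0)
  rw [q1] at n1
  rw [q2] at n2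
  rw [q3] at n3
  have s3 : vee 1 1 - vee 1 0 = (vee 1 (1 / 2) - vee 1 0) + (vee 1 1 - vee 1 (1 / 2)) := by ring
  rw [s3, mul_add, Complex.add_im] at m3
  rw [s3, mul_add, Complex.add_im, Complex.add_re] at n3
  have r3 : Real.sqrt 3 ^ 2 = 3 := Real.sq_sqrt (by norm_num)
  set y₁ := ((u : ℂ) * (vee 1 (1 / 2) - vee 1 0)).im
  set y₂ := ((u : ℂ) * (vee 1 1 - vee 1 (1 / 2))).im
  have := equi (s := 1 / 2) (m := max |y₁| (max |y₂| |y₁ + y₂|)) (by norm_num) n1 n2 n3
    (le_max_left _ _) ((le_max_left _ _).trans (le_max_right _ _))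
    ((le_max_right _ _).trans (le_max_right _ _))
  have hm : max |y₁| (max |y₂| |y₁ + y₂|) < Real.sqrt 3 / 4 := max_lt m1 (max_lt m2 m3)
  have hm0 : 0 ≤ max |y₁| (max |y₂| |y₁ + y₂|) := (abs_nonneg _).trans (le_max_left _ _)
  nlinarith

/-- Upper bound through the width. -/
theorem flat_upper {A B C : ℂ} {c h μ : ℝ} (H : Pos A B C c h μ) {l : ℝ} (hl : 0 < l)
    (hfit : ∀ γ, IsCurve γ l → Fits γ (Tri A B C)) : l * w₀ ≤ h := by
  have hw : w₀ ≤ h / l := by
    refine csSup_le ⟨0, w₀_nonempty⟩ ?_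
    rintro w ⟨γ, hγ, hw⟩
    obtain ⟨φ, hφ⟩ := hfit _ (by simpa using hγ.smul hl)
    obtain ⟨u, hu⟩ := tri_strip H
    -- the isometry is affine
    have hφd : ∀ z w, φ z - φ w = φ.toRealLinearIsometryEquiv (z - w) := by
      intro z w
      rw [map_sub, IsometryEquiv.toRealLinearIsometryEquiv_apply,
        IsometryEquiv.toRealLinearIsometryEquiv_apply]
      ring
    obtain ⟨a, ha⟩ := linear_isometry_complex φ.toRealLinearIsometryEquiv
    have hG : ∃ v : Circle, ∀ z w, |G u (φ z) - G u (φ w)| = |((v : ℂ) * (z - w)).im| := by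
      rcases ha with ha | ha
      · refine ⟨a * u⁻¹, fun z w => ?_⟩
        rw [G_sub, hφd, ha, rotation_apply]
        unfold G
        congr 2
        rw [Circle.coe_mul, Circle.coe_inv_eq_conj]
        ring
      · refine ⟨a⁻¹ * u, fun z w => ?_⟩
        rw [G_sub, hφd, ha]
        change |((a : ℂ) * (starRingEnd ℂ) (z - w) * (starRingEnd ℂ) (u : ℂ)).im| = _
        have e : (a : ℂ) * (starRingEnd ℂ) (z - w) * (starRingEnd ℂ) (u : ℂ) =
            (starRingEnd ℂ) (((a⁻¹ * u : Circle) : ℂ) * (z - w)) := by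
          rw [Circle.coe_mul, Circle.coe_inv_eq_conj, map_mul, map_mul, Complex.conj_conj]
          ring
        rw [e, Complex.conj_im, abs_neg]
    obtain ⟨v, hv⟩ := hG
    obtain ⟨s, t, hst⟩ := hw v
    have h1 := hu _ (hφ s) _ (hφ t)
    rw [hv, ← mul_sub, mul_left_comm, Complex.im_ofReal_mul, abs_mul, abs_of_pos hl] at h1
    rw [le_div_iff₀ hl]
    have h2 : ((v : ℂ) * γ s).im - ((v : ℂ) * γ t).im ≤ |((v : ℂ) * (γ s - γ t)).im| := by
      rw [← Complex.sub_im, ← mul_sub]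
      exact le_abs_self _
    calc w * l ≤ |((v : ℂ) * (γ s - γ t)).im| * l := by gcongr; linarith
      _ ≤ h := by rw [mul_comm]; exact h1
  calc l * w₀ ≤ l * (h / l) := by gcongr
    _ = h := by field_simp

/-- Lower bound through the width. -/
theorem flat_lower {A B C : ℂ} {c h μ : ℝ} (H : Pos A B C c h μ) (hμ0 : 0 ≤ μ) (hμ1 : μ ≤ 1)
    {l : ℝ} (hl : 0 < l) (hlt : l * w₀ / h + l / c < 1) {γ : unitInterval → ℂ}
    (hγ : IsCurve γ l) : Fits γ (Tri A B C) := by
  have hc := H.c_pos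
  have hh := H.h_pos
  obtain ⟨w, hw0, hw1⟩ : ∃ w, w₀ < w ∧ l * w / h + l / c ≤ 1 := by
    refine ⟨w₀ + h / l * (1 - (l * w₀ / h + l / c)), ?_, ?_⟩
    · have : 0 < h / l * (1 - (l * w₀ / h + l / c)) := by
        have := sub_pos.2 hlt
        positivity
      linarith
    · field_simp
      linarith
  have hn := notMem_of_csSup_lt hw0 w₀_bdd
  simp only [mem_ofPred_eq, not_exists, not_and, not_forall, not_le] at hn
  have hγ1 := hγ.smul (inv_pos.2 hl)
  rw [inv_mul_cancel₀ hl.ne'] at hγ1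
  obtain ⟨u, hu⟩ := hn _ hγ1
  refine Fits.comp (rotation u).toIsometryEquiv ?_
  have hγu := hγ.comp (rotation u).toIsometryEquiv
  have hwid : ∀ s t, ((rotation u) (γ s)).im - ((rotation u) (γ t)).im ≤ l * w := by
    intro s t
    have := (hu s t).le
    rw [mul_left_comm, mul_left_comm (u : ℂ), Complex.im_ofReal_mul, Complex.im_ofReal_mul,
      ← mul_sub] at this
    rw [rotation_apply, rotation_apply]
    calc _ = l * (l⁻¹ * (((u : ℂ) * γ s).im - ((u : ℂ) * γ t).im)) := by field_simp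
      _ ≤ l * w := by gcongr
  change Fits (fun t => (rotation u) (γ t)) _
  change IsCurve (fun t => (rotation u) (γ t)) l at hγu
  generalize hg : (fun t => (rotation u) (γ t)) = g at *
  have hwid' : ∀ s t, (g s).im - (g t).im ≤ l * w := by
    intro s t; rw [← hg]; exact hwid s t
  have hre : ∀ s t, (g s).re - (g t).re ≤ l := by
    intro s t
    have := hγu.dist_le hl.le s t
    rw [dist_eq_norm] at this
    rw [← Complex.sub_re]
    exact (Complex.re_le_norm _).trans this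
  have hcr : Continuous fun t => (g t).re := Complex.continuous_re.comp hγu.cont
  have hci : Continuous fun t => (g t).im := Complex.continuous_im.comp hγu.cont
  have ne : (univ : Set unitInterval).Nonempty := ⟨0, mem_univ _⟩
  obtain ⟨p, -, hp⟩ := isCompact_univ.exists_isMaxOn ne hcr.continuousOn
  obtain ⟨q, -, hq⟩ := isCompact_univ.exists_isMinOn ne hcr.continuousOn
  obtain ⟨r, -, hr⟩ := isCompact_univ.exists_isMaxOn ne hci.continuousOn
  obtain ⟨s, -, hs⟩ := isCompact_univ.exists_isMinOn ne hci.continuousOn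
  have hp' : ∀ t, (g t).re / c ≤ (g p).re / c := fun t =>
    div_le_div_of_nonneg_right (hp (mem_univ t)) hc.le
  have hq' : ∀ t, (g q).re / c ≤ (g t).re / c := fun t =>
    div_le_div_of_nonneg_right (hq (mem_univ t)) hc.le
  have hr' : ∀ t, (g t).im / h ≤ (g r).im / h := fun t =>
    div_le_div_of_nonneg_right (hr (mem_univ t)) hh.le
  have hs' : ∀ t, (g s).im / h ≤ (g t).im / h := fun t =>
    div_le_div_of_nonneg_right (hs (mem_univ t)) hh.le
  refine place H (m₁ := (g p).re / c + μ * ((g r).im / h))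
    (m₂ := -((g q).re / c) + (1 - μ) * ((g r).im / h)) (m₃ := -((g s).im / h)) (fun t => ?_)
    (fun t => ?_) (fun t => ?_) ?_
  · have := hp' t
    have := mul_le_mul_of_nonneg_left (hr' t) hμ0
    linarith
  · have := hq' t
    have := mul_le_mul_of_nonneg_left (hr' t) (sub_nonneg.2 hμ1)
    linarith
  · have := hs' t
    linarith
  · have k1 : (g p).re / c - (g q).re / c ≤ l / c := by
      rw [← sub_div]
      exact div_le_div_of_nonneg_right (hre p q) hc.le
    have k2 : (g r).im / h - (g s).im / h ≤ l * w / h := by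
      rw [← sub_div]
      exact div_le_div_of_nonneg_right (hwid' r s) hh.le
    linarith

end TriW
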