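import Pool.Agent.TriW.Upper
import Pool.Agent.TriW.Arc

/-!
# Upper bound through the zigzag
-/

set_option autoImplicit false

noncomputable section

open Set

namespace TriW

/-- the symmetric zigzag of three equal segments, of width `X` and height `y` -/
def zee (X y : ℝ) (t : ℝ) : ℂ :=
  ((X * t : ℝ) : ℂ) + ((y * |(|3 * t - 1| - 1)| : ℝ) : ℂ) * Complex.I

theorem dist_zee (X y : ℝ) (s t : ℝ) :
    dist (zee X y s) (zee X y t) ≤ Real.sqrt (X ^ 2 + 9 * y ^ 2) * |s - t| := by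
  rw [Complex.dist_eq, Complex.norm_eq_sqrt_sq_add_sq]
  refine Real.sqrt_le_iff.2 ⟨by positivity, ?_⟩
  have hr : (zee X y s - zee X y t).re = X * (s - t) := by
    unfold zee; simp; ring
  have hi : (zee X y s - zee X y t).im = y * (|(|3 * s - 1| - 1)| - |(|3 * t - 1| - 1)|) := by
    unfold zee; simp; ring
  have h1 : (|(|3 * s - 1| - 1)| - |(|3 * t - 1| - 1)|) ^ 2 ≤ 9 * (s - t) ^ 2 := by
    have h2 := abs_abs_sub_abs_le (|3 * s - 1| - 1) (|3 * t - 1| - 1)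
    have h3 := abs_abs_sub_abs_le (3 * s - 1) (3 * t - 1)
    have h4 : |(|(|3 * s - 1| - 1)| - |(|3 * t - 1| - 1)|)| ≤ |3 * s - 1 - (3 * t - 1)| := by
      refine h2.trans (le_trans (le_of_eq ?_) h3)
      congr 1
      ring
    rw [← sq_abs]
    calc |(|(|3 * s - 1| - 1)| - |(|3 * t - 1| - 1)|)| ^ 2 ≤ |3 * s - 1 - (3 * t - 1)| ^ 2 := by
          gcongr
      _ = 9 * (s - t) ^ 2 := by rw [sq_abs]; ring
  rw [hr, hi, mul_pow (Real.sqrt _), sq_abs, Real.sq_sqrt (by positivity), mul_pow, mul_pow]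
  nlinarith [mul_nonneg (sq_nonneg y) (sub_nonneg.2 h1)]

/-- thirds -/
def th (k : ℕ) : unitInterval := ⟨min ((k : ℝ) / 3) 1, le_min (by positivity) zero_le_one,
  min_le_right _ _⟩

theorem th_mono : Monotone th := by
  intro a b hab
  change min ((a : ℝ) / 3) 1 ≤ min ((b : ℝ) / 3) 1
  exact min_le_min_right _ (by gcongr)

theorem th0 : ((th 0 : unitInterval) : ℝ) = 0 := by
  change min (((0 : ℕ) : ℝ) / 3) 1 = 0
  norm_num

theorem th1 : ((th 1 : unitInterval) : ℝ) = 1 / 3 := by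
  change min (((1 : ℕ) : ℝ) / 3) 1 = 1 / 3
  norm_num

theorem th2 : ((th 2 : unitInterval) : ℝ) = 2 / 3 := by
  change min (((2 : ℕ) : ℝ) / 3) 1 = 2 / 3
  norm_num

theorem th3 : ((th 3 : unitInterval) : ℝ) = 1 := by
  change min (((3 : ℕ) : ℝ) / 3) 1 = 1
  norm_num

theorem zee_0 (X y : ℝ) : zee X y (th 0) = 0 := by
  rw [th0]; unfold zee; simp

theorem zee_1 (X y : ℝ) : zee X y (th 1) = ((X / 3 : ℝ) : ℂ) + ((y : ℝ) : ℂ) * Complex.I := by
  have e1 : X * (1 / 3) = X / 3 := by ring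
  have e2 : y * |(|3 * (1 / 3 : ℝ) - 1| - 1)| = y := by norm_num
  rw [th1]; unfold zee; rw [e1, e2]

theorem zee_2 (X y : ℝ) : zee X y (th 2) = ((2 * X / 3 : ℝ) : ℂ) := by
  have e1 : X * (2 / 3) = 2 * X / 3 := by ring
  have e2 : y * |(|3 * (2 / 3 : ℝ) - 1| - 1)| = 0 := by norm_num
  rw [th2]; unfold zee; rw [e1, e2]; simp

theorem zee_3 (X y : ℝ) : zee X y (th 3) = ((X : ℝ) : ℂ) + ((y : ℝ) : ℂ) * Complex.I := by
  have e1 : X * 1 = X := by ring
  have e2 : y * |(|3 * (1 : ℝ) - 1| - 1)| = y := by norm_num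
  rw [th3]; unfold zee; rw [e1, e2]

theorem isCurve_zee (X y : ℝ) :
    IsCurve (fun t : unitInterval => zee X y t) (Real.sqrt (X ^ 2 + 9 * y ^ 2)) := by
  refine isCurve_of (Real.sqrt_nonneg _) (dist_zee X y) ?_
  have key := eVariationOn.sum_le (f := fun t : unitInterval => zee X y t) (s := univ) (n := 3)
    th_mono (fun i => mem_univ _)
  refine le_trans (le_of_eq ?_) key
  have hd : ∀ z w : ℂ, (z - w).re ^ 2 + (z - w).im ^ 2 = (X ^ 2 + 9 * y ^ 2) / 9 →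
      edist z w = ENNReal.ofReal (Real.sqrt (X ^ 2 + 9 * y ^ 2) / 3) := by
    intro z w h
    rw [edist_dist]
    congr 1
    refine dist_eq_of_sq (by positivity) ?_
    rw [h, div_pow, Real.sq_sqrt (by positivity)]
    norm_num
  simp only [Finset.sum_range_succ, Finset.sum_range_zero, zero_add, Nat.reduceAdd]
  rw [zee_0, zee_1, zee_2, zee_3, hd, hd, hd, ← ENNReal.ofReal_add (by positivity) (by positivity),
    ← ENNReal.ofReal_add (by positivity) (by positivity)]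
  · congr 1
    ring
  · simp
    ring
  · simp
    ring
  · simp
    ring

/-- The triangle in standard position. -/
theorem std {A B C : ℂ} {c h μ : ℝ} (H : Pos A B C c h μ) : ∃ J : ℂ ≃ᵢ ℂ, ∀ P ∈ Tri A B C,
    (J P).re / c + μ * ((J P).im / h) ≤ 1 ∧ -((J P).re / c) + (1 - μ) * ((J P).im / h) ≤ 0 ∧
      0 ≤ (J P).im / h := by
  obtain ⟨u, s, hs, hB, hC⟩ := H.ex
  have hc := H.c_pos
  have hh := H.h_pos
  obtain ⟨J, hJ⟩ : ∃ J : ℂ ≃ᵢ ℂ, ∀ z, J z = (z.re : ℂ) + ((s * z.im : ℝ) : ℂ) * Complex.I := by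
    rcases hs with rfl | rfl
    · refine ⟨IsometryEquiv.refl ℂ, fun z => ?_⟩
      change z = _
      apply Complex.ext <;> simp
    · refine ⟨Complex.conjLIE.toIsometryEquiv, fun z => ?_⟩
      change (starRingEnd ℂ) z = _
      apply Complex.ext <;> simp
  have hu : (u : ℂ) * (starRingEnd ℂ) (u : ℂ) = 1 := by
    rw [Complex.mul_conj, Complex.normSq_eq_norm_sq, u.norm_coe]
    simp
  set J' : ℂ ≃ᵢ ℂ := (IsometryEquiv.addRight (-A)).trans
    ((rotation u⁻¹).toIsometryEquiv.trans J) with hJ'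
  have e : ∀ P, J' P = J ((starRingEnd ℂ) (u : ℂ) * (P - A)) := by
    intro P
    change J ((u⁻¹ : Circle) * (P + -A)) = _
    rw [Circle.coe_inv_eq_conj, sub_eq_add_neg]
  have ere : ∀ P, (J' P).re = ((starRingEnd ℂ) (u : ℂ) * (P - A)).re := by
    intro P
    rw [e, hJ]
    simp
  have eim : ∀ P, (J' P).im = s * ((starRingEnd ℂ) (u : ℂ) * (P - A)).im := by
    intro P
    rw [e, hJ]
    simp
  refine ⟨J', ?_⟩
  have lin : ∀ x y : ℝ, x + y = 1 → ∀ P Q : ℂ, (J' (x • P + y • Q)).re =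
      x * (J' P).re + y * (J' Q).re ∧ (J' (x • P + y • Q)).im =
      x * (J' P).im + y * (J' Q).im := by
    intro x y hxy P Q
    have e1 : (starRingEnd ℂ) (u : ℂ) * (x • P + y • Q - A) =
        (x : ℂ) * ((starRingEnd ℂ) (u : ℂ) * (P - A)) +
          (y : ℂ) * ((starRingEnd ℂ) (u : ℂ) * (Q - A)) := by
      have : (y : ℂ) = 1 - x := by
        have : y = 1 - x := by linarith
        rw [this]
        push_cast
        rfl
      simp only [Complex.real_smul]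
      rw [this]
      ring
    rw [ere, ere, ere, eim, eim, eim, e1]
    simp only [Complex.add_re, Complex.add_im, Complex.re_ofReal_mul, Complex.im_ofReal_mul]
    exact ⟨trivial, by ring⟩
  have conv : Convex ℝ {P : ℂ | (J' P).re / c + μ * ((J' P).im / h) ≤ 1 ∧
      -((J' P).re / c) + (1 - μ) * ((J' P).im / h) ≤ 0 ∧ 0 ≤ (J' P).im / h} := by
    intro P hP Q hQ x y hx hy hxy
    obtain ⟨l1, l2⟩ := lin x y hxy P Q
    obtain ⟨p1, p2, p3⟩ := hP
    obtain ⟨q1, q2, q3⟩ := hQ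
    simp only [mem_ofPred_eq]
    rw [l1, l2]
    have d1 : (x * (J' P).re + y * (J' Q).re) / c = x * ((J' P).re / c) + y * ((J' Q).re / c) := by
      ring
    have d2 : (x * (J' P).im + y * (J' Q).im) / h = x * ((J' P).im / h) + y * ((J' Q).im / h) := by
      ring
    rw [d1, d2]
    refine ⟨?_, ?_, ?_⟩
    · have a1 := mul_le_mul_of_nonneg_left p1 hx
      have a2 := mul_le_mul_of_nonneg_left q1 hy
      linarith
    · have a1 := mul_le_mul_of_nonneg_left p2 hx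
      have a2 := mul_le_mul_of_nonneg_left q2 hy
      linarith
    · positivity
  have hs2 : s * s = 1 := by rcases hs with rfl | rfl <;> norm_num
  suffices sub : Tri A B C ⊆ {P : ℂ | (J' P).re / c + μ * ((J' P).im / h) ≤ 1 ∧
      -((J' P).re / c) + (1 - μ) * ((J' P).im / h) ≤ 0 ∧ 0 ≤ (J' P).im / h} from
    fun P hP => sub hP
  refine convexHull_min ?_ conv
  intro z hz
  simp only [mem_insert_iff, mem_singleton_iff] at hz
  simp only [mem_ofPred_eq]
  rw [ere, eim]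
  rcases hz with rfl | rfl | rfl
  · simp
  · have e1 : (starRingEnd ℂ) (u : ℂ) * (z - A) = (c : ℂ) := by
      rw [hB]
      linear_combination (c : ℂ) * hu
    rw [e1]
    have e2 : (c : ℂ).re / c = 1 := by rw [Complex.ofReal_re, div_self hc.ne']
    have e3 : (c : ℂ).im = 0 := Complex.ofReal_im c
    rw [e2, e3]
    norm_num
  · have e1 : (starRingEnd ℂ) (u : ℂ) * (z - A) =
        ((((1 - μ) * c : ℝ) : ℂ) + (s * h : ℝ) * Complex.I) := by
      rw [hC]
      linear_combination ((((1 - μ) * c : ℝ) : ℂ) + (s * h : ℝ) * Complex.I) * hu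
    rw [e1]
    have e2 : ((((1 - μ) * c : ℝ) : ℂ) + (s * h : ℝ) * Complex.I).re = (1 - μ) * c := by simp
    have e3 : ((((1 - μ) * c : ℝ) : ℂ) + (s * h : ℝ) * Complex.I).im = s * h := by simp
    rw [e2, e3]
    have e4 : s * (s * h) / h = 1 := by
      rw [← mul_assoc, hs2, one_mul, div_self hh.ne']
    have e5 : (1 - μ) * c / c = 1 - μ := by field_simp
    rw [e4, e5]
    refine ⟨by linarith, by linarith, by norm_num⟩

/-- The zigzag does not fit, in coordinates. -/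
theorem nofit {x y px py qx qy c₁ c₂ c C S m n κ r a b σ k : ℝ} (he : C ^ 2 + S ^ 2 = 1)
    (hκ : 0 < κ) (hm : κ ≤ m) (hn : κ ≤ n) (hσ : σ = m + n) (hr : r ^ 2 = 9 + κ ^ 2) (hr0 : 0 < r)
    (ha : a ^ 2 = 1 + m ^ 2) (hb : b ^ 2 = 1 + n ^ 2) (ha0 : 0 < a) (hb0 : 0 < b)
    (haσ : a ≤ σ) (hbσ : b ≤ σ) (hmn : m * n < 3) (H1 : r ^ 3 ≤ 27 + 7 * κ ^ 2)
    (H2 : r ^ 2 * a ≤ 9 * σ + κ * (1 - m * n))
    (H3 : r ^ 3 * b ≤ (27 + κ ^ 2) * σ + 6 * κ * (1 - m * n)) (hk : 0 ≤ k)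
    (hpx : px = k * (6 * C)) (hpy : py = k * (6 * S)) (hqx : qx = k * (3 * C - κ * S))
    (hqy : qy = k * (3 * S + κ * C)) (hc : c₁ + c₂ = c)
    (u0 : x + m * y ≤ c₁) (v0 : -x + n * y ≤ c₂) (w0 : 0 ≤ y)
    (u1 : x + px + m * (y + py) ≤ c₁) (v1 : -(x + px) + n * (y + py) ≤ c₂) (w1 : 0 ≤ y + py)
    (u2 : x + qx + m * (y + qy) ≤ c₁) (v2 : -(x + qx) + n * (y + qy) ≤ c₂) (w2 : 0 ≤ y + qy)
    (u3 : x + px + qx + m * (y + py + qy) ≤ c₁) (v3 : -(x + px + qx) + n * (y + py + qy) ≤ c₂)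
    (w3 : 0 ≤ y + py + qy) : k * r ^ 2 ≤ c := by
  have hσ0 : 0 ≤ m + n := by linarith
  have w0' := mul_nonneg hσ0 w0
  have w1' := mul_nonneg hσ0 w1
  have w2' := mul_nonneg hσ0 w2
  have w3' := mul_nonneg hσ0 w3
  have i1 : px + m * py + (qx + m * qy) ≤ c := by linarith
  have i2 : px + m * py + σ * qy ≤ c := by rw [hσ]; linarith
  have i3 : σ * py + σ * qy ≤ c := by rw [hσ]; linarith
  have i4 : σ * py + (-qx + n * qy) ≤ c := by rw [hσ]; linarith
  have i5 : -px + n * py + (-qx + n * qy) ≤ c := by linarith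
  have i6 : -px + n * py + (-qx - m * qy) ≤ c := by linarith
  have j1 : -(px + m * py + (qx + m * qy)) ≤ c := by linarith
  have j2 : -(px + m * py + σ * qy) ≤ c := by rw [hσ]; linarith
  have j3 : -(σ * py + σ * qy) ≤ c := by rw [hσ]; linarith
  have j4 : -(σ * py + (-qx + n * qy)) ≤ c := by rw [hσ]; linarith
  have j5 : -(-px + n * py + (-qx + n * qy)) ≤ c := by linarith
  have j6 : -(-px + n * py + (-qx - m * qy)) ≤ c := by linarith
  subst hpx hpy hqx hqy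
  rcases le_total 0 S with hS | hS
  · rcases core he hS hκ hm hn hσ hr hr0 ha hb ha0 hb0 haσ hbσ hmn H1 H2 H3 with
      h | h | h | h | h | h <;> have := mul_le_mul_of_nonneg_left h hk
    · refine this.trans (le_trans (le_of_eq ?_) i1); ring
    · refine this.trans (le_trans (le_of_eq ?_) i2); ring
    · refine this.trans (le_trans (le_of_eq ?_) i3); ring
    · refine this.trans (le_trans (le_of_eq ?_) i4); ring
    · refine this.trans (le_trans (le_of_eq ?_) i5); ring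
    · refine this.trans (le_trans (le_of_eq ?_) i6); ring
  · rcases core (C := -C) (S := -S) (by rw [neg_sq, neg_sq]; exact he) (by linarith) hκ hm hn hσ hr
      hr0 ha hb ha0 hb0 haσ hbσ hmn H1 H2 H3 with
      h | h | h | h | h | h <;> have := mul_le_mul_of_nonneg_left h hk
    · refine this.trans (le_trans (le_of_eq ?_) j1); ring
    · refine this.trans (le_trans (le_of_eq ?_) j2); ring
    · refine this.trans (le_trans (le_of_eq ?_) j3); ring
    · refine this.trans (le_trans (le_of_eq ?_) j4); ring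
    · refine this.trans (le_trans (le_of_eq ?_) j5); ring
    · refine this.trans (le_trans (le_of_eq ?_) j6); ring

theorem sq_sqrt_pos {x : ℝ} (hx : 0 < x) : 0 < Real.sqrt x ∧ Real.sqrt x ^ 2 = x :=
  ⟨Real.sqrt_pos.2 hx, Real.sq_sqrt hx.le⟩

/-- Upper bound through the zigzag. -/
theorem zee_upper {A B C : ℂ} {c h μ : ℝ} (H : Pos A B C c h μ) (hμ0 : 0 < μ) (hμ1 : μ ≤ 1 / 2)
    (hbc : (1 - μ) ^ 2 * c ^ 2 + h ^ 2 ≤ c ^ 2) (hch : 2 * c ^ 2 ≤ 9 * h ^ 2) {l : ℝ} (hl : 0 ≤ l)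
    (hfit : ∀ γ, IsCurve γ l → Fits γ (Tri A B C)) :
    l ≤ 3 * h * c / Real.sqrt (9 * h ^ 2 + μ ^ 2 * c ^ 2) := by
  have hc := H.c_pos
  have hh := H.h_pos
  set κ := μ * c / h with hκ
  set ν := (1 - μ) * c / h with hν
  set σ := c / h with hσ
  have hκ0 : 0 < κ := by positivity
  have hκν : κ ≤ ν := by
    rw [hκ, hν]
    refine div_le_div_of_nonneg_right ?_ hh.le
    exact mul_le_mul_of_nonneg_right (by linarith) hc.le
  have hσe : σ = κ + ν := by rw [hκ, hν, hσ]; ring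
  have hσ0 : 0 < σ := by positivity
  have hσ2 : 2 * σ ^ 2 ≤ 9 := by
    rw [hσ, div_pow, ← mul_div_assoc, div_le_iff₀ (by positivity)]
    exact hch
  have hκσ : 2 * κ ≤ σ := by linarith
  obtain ⟨hr0, hr⟩ := sq_sqrt_pos (x := 9 + κ ^ 2) (by positivity)
  obtain ⟨ha0, ha⟩ := sq_sqrt_pos (x := 1 + κ ^ 2) (by positivity)
  obtain ⟨hb0, hb⟩ := sq_sqrt_pos (x := 1 + ν ^ 2) (by positivity)
  set r := Real.sqrt (9 + κ ^ 2) with hrd
  set a := Real.sqrt (1 + κ ^ 2) with had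
  set b := Real.sqrt (1 + ν ^ 2) with hbd
  have hab : a ≤ b := Real.sqrt_le_sqrt (by nlinarith)
  have hν2 : 1 + ν ^ 2 ≤ σ ^ 2 := by
    rw [hν, hσ]
    have : 1 + ((1 - μ) * c / h) ^ 2 = ((1 - μ) ^ 2 * c ^ 2 + h ^ 2) / h ^ 2 := by
      field_simp
      ring
    rw [this, div_pow]
    exact div_le_div_of_nonneg_right hbc (by positivity)
  have hbσ : b ≤ σ := by
    rw [hbd]
    exact Real.sqrt_le_iff.2 ⟨hσ0.le, hν2⟩
  have haσ : a ≤ σ := hab.trans hbσ
  have hκ2 : κ ^ 2 ≤ 9 / 8 := by nlinarith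
  have hmn : κ * ν < 3 := by nlinarith [sq_nonneg (κ - ν)]
  have hr3 : r ^ 3 = r * (9 + κ ^ 2) := by rw [← hr]; ring
  have hr27 : 3 ≤ r := by
    rw [hrd]
    exact Real.le_sqrt_of_sq_le (by nlinarith)
  have hr27' : 27 ≤ r ^ 3 := by
    calc (27 : ℝ) = 3 ^ 3 := by norm_num
      _ ≤ r ^ 3 := by gcongr
  have H1 : r ^ 3 ≤ 27 + 7 * κ ^ 2 := by
    refine abs_le_of_sq_le_sq' ?_ (by positivity) |>.2
    have : (r ^ 3) ^ 2 = (9 + κ ^ 2) ^ 3 := by rw [← hr]; ring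
    rw [this]
    nlinarith [sq_nonneg κ, mul_nonneg (sq_nonneg κ) (sub_nonneg.2 hκ2), sq_nonneg (κ ^ 2),
      mul_nonneg (mul_nonneg (sq_nonneg κ) (sq_nonneg κ)) (sub_nonneg.2 hκ2)]
  have hbb : b ^ 2 = σ ^ 2 - (κ ^ 2 + 2 * κ * ν - 1) := by rw [hb, hσe]; ring
  have H2b : r ^ 2 * b ≤ 9 * σ + κ * (1 - κ * ν) := by
    have e : 9 * σ + κ * (1 - κ * ν) = r ^ 2 * σ - κ * (σ ^ 2 - b ^ 2) := by
      rw [hbb, hr, hσe]; ring
    rw [e, hr]
    have : κ * (σ + b) ≤ 9 + κ ^ 2 := by nlinarith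
    nlinarith [mul_nonneg (sub_nonneg.2 hbσ) (sub_nonneg.2 this)]
  have H3b : r ^ 3 * b ≤ (27 + κ ^ 2) * σ + 6 * κ * (1 - κ * ν) := by
    have e : (27 + κ ^ 2) * σ + 6 * κ * (1 - κ * ν) =
        (27 + 7 * κ ^ 2) * σ - 6 * κ * (σ ^ 2 - b ^ 2) := by
      rw [hbb, hσe]; ring
    rw [e]
    have h1 : 6 * κ * (σ + b) ≤ r ^ 3 := by nlinarith
    have h2 := mul_nonneg (sub_nonneg.2 hbσ) (sub_nonneg.2 h1)
    have h3 := mul_le_mul_of_nonneg_right H1 hσ0.le
    nlinarith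
  have H2a : r ^ 2 * a ≤ 9 * σ + κ * (1 - κ * ν) :=
    (mul_le_mul_of_nonneg_left hab (by positivity)).trans H2b
  have H3a : r ^ 3 * a ≤ (27 + κ ^ 2) * σ + 6 * κ * (1 - κ * ν) :=
    (mul_le_mul_of_nonneg_left hab (by positivity)).trans H3b
  -- it suffices to bound `l r`
  suffices hmain : l / (3 * r) * r ^ 2 ≤ c by
    have e1 : Real.sqrt (9 * h ^ 2 + μ ^ 2 * c ^ 2) = h * r := by
      rw [hrd, ← Real.sqrt_sq hh.le, ← Real.sqrt_mul (by positivity), Real.sqrt_sq hh.le, hκ]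
      congr 1
      field_simp
    rw [e1]
    have e2 : l / (3 * r) * r ^ 2 = l * r / 3 := by field_simp
    rw [e2] at hmain
    have e3 : 3 * h * c / (h * r) = 3 * c / r := by field_simp
    rw [e3, le_div_iff₀ hr0]
    linarith
  -- the zigzag
  have hlen : Real.sqrt ((3 * l / r) ^ 2 + 9 * (κ * l / (3 * r)) ^ 2) = l := by
    have : (3 * l / r) ^ 2 + 9 * (κ * l / (3 * r)) ^ 2 = l ^ 2 := by
      have : (3 * l / r) ^ 2 + 9 * (κ * l / (3 * r)) ^ 2 = l ^ 2 * (9 + κ ^ 2) / r ^ 2 := by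
        field_simp
        ring
      rw [this, ← hr]
      field_simp
    rw [this, Real.sqrt_sq hl]
  have hcurve := isCurve_zee (3 * l / r) (κ * l / (3 * r))
  rw [hlen] at hcurve
  obtain ⟨φ, hφ⟩ := hfit _ hcurve
  obtain ⟨J, hJ⟩ := std H
  set Φ := φ.trans J with hΦ
  have hT : ∀ k : ℕ, (Φ (zee (3 * l / r) (κ * l / (3 * r)) (th k))).re +
      κ * (Φ (zee (3 * l / r) (κ * l / (3 * r)) (th k))).im ≤ c ∧
      -(Φ (zee (3 * l / r) (κ * l / (3 * r)) (th k))).re +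
      ν * (Φ (zee (3 * l / r) (κ * l / (3 * r)) (th k))).im ≤ 0 ∧
      0 ≤ (Φ (zee (3 * l / r) (κ * l / (3 * r)) (th k))).im := by
    intro k
    have := hJ _ (hφ (th k))
    change (Φ _).re / c + μ * ((Φ _).im / h) ≤ 1 ∧ -((Φ _).re / c) + (1 - μ) * ((Φ _).im / h) ≤ 0 ∧
      0 ≤ (Φ _).im / h at this
    obtain ⟨f1, f2, f3⟩ := this
    have g1 := mul_le_mul_of_nonneg_left f1 hc.le
    have g2 := mul_le_mul_of_nonneg_left f2 hc.le
    have g3 := mul_nonneg hh.le f3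
    refine ⟨?_, ?_, ?_⟩
    · refine le_trans (le_of_eq ?_) (g1.trans_eq (mul_one c))
      rw [hκ]
      field_simp
    · refine le_trans (le_of_eq ?_) (g2.trans_eq (mul_zero c))
      rw [hν]
      field_simp
    · refine g3.trans_eq ?_
      field_simp
  have hΦd : ∀ z w, Φ z - Φ w = Φ.toRealLinearIsometryEquiv (z - w) := by
    intro z w
    rw [map_sub, IsometryEquiv.toRealLinearIsometryEquiv_apply,
      IsometryEquiv.toRealLinearIsometryEquiv_apply]
    ring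
  have t0 := hT 0
  have t1 := hT 1
  have t2 := hT 2
  have t3 := hT 3
  rw [zee_0] at t0
  rw [zee_1] at t1
  rw [zee_2] at t2
  rw [zee_3] at t3
  obtain ⟨e, he⟩ := linear_isometry_complex Φ.toRealLinearIsometryEquiv
  have hcs : (e : ℂ).re ^ 2 + (e : ℂ).im ^ 2 = 1 := by
    have : ‖(e : ℂ)‖ ^ 2 = 1 := by rw [e.norm_coe]; norm_num
    rw [Complex.sq_norm, Complex.normSq_apply] at this
    linarith
  set X := 3 * l / r with hX
  set y := κ * l / (3 * r) with hy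
  have hX3 : X / 3 = l / (3 * r) * 3 := by rw [hX]; field_simp
  have hX6 : 2 * X / 3 = l / (3 * r) * 6 := by rw [hX]; field_simp; ring
  have hX9 : X = l / (3 * r) * 9 := by rw [hX]; field_simp; ring
  have hyk : y = l / (3 * r) * κ := by rw [hy]; ring
  rcases he with he | he
  · have d : ∀ z, Φ z = Φ 0 + (e : ℂ) * z := by
      intro z
      have := hΦd z 0
      rw [he, sub_zero, rotation_apply] at this
      rw [← this]; ring
    have r1 : ∀ z : ℂ, (Φ z).re = (Φ 0).re + ((e : ℂ).re * z.re - (e : ℂ).im * z.im) := by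
      intro z; rw [d]; simp
    have r2 : ∀ z : ℂ, (Φ z).im = (Φ 0).im + ((e : ℂ).re * z.im + (e : ℂ).im * z.re) := by
      intro z; rw [d]; simp
    rw [r1 ((X / 3 : ℝ) + (y : ℝ) * Complex.I), r2 ((X / 3 : ℝ) + (y : ℝ) * Complex.I)] at t1
    rw [r1 ((2 * X / 3 : ℝ) : ℂ), r2 ((2 * X / 3 : ℝ) : ℂ)] at t2
    rw [r1 ((X : ℝ) + (y : ℝ) * Complex.I), r2 ((X : ℝ) + (y : ℝ) * Complex.I)] at t3
    simp only [Complex.add_re, Complex.ofReal_re, Complex.mul_re, Complex.I_re, Complex.ofReal_im,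
      Complex.I_im, Complex.add_im, Complex.mul_im, mul_zero, zero_mul, mul_one, sub_self, add_zero,
      zero_add, sub_zero] at t1 t2 t3
    rw [hX3, hyk] at t1
    rw [hX6] at t2
    rw [hX9, hyk] at t3
    refine nofit (x := (Φ 0).re) (y := (Φ 0).im) (c₁ := c) (c₂ := 0) hcs hκ0 le_rfl hκν hσe hr hr0
      ha hb ha0 hb0 haσ hbσ hmn H1 H2a H3b (k := l / (3 * r)) (by positivity) rfl rfl rfl rfl
      (add_zero c) t0.1 t0.2.1 t0.2.2 ?_ ?_ ?_ ?_ ?_ ?_ ?_ ?_ ?_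
    · linarith [t2.1]
    · linarith [t2.2.1]
    · linarith [t2.2.2]
    · linarith [t1.1]
    · linarith [t1.2.1]
    · linarith [t1.2.2]
    · linarith [t3.1]
    · linarith [t3.2.1]
    · linarith [t3.2.2]
  · have d : ∀ z, Φ z = Φ 0 + (e : ℂ) * (starRingEnd ℂ) z := by
      intro z
      have := hΦd z 0
      rw [he, sub_zero] at this
      change _ = (e : ℂ) * (starRingEnd ℂ) z at this
      rw [← this]; ring
    have r1 : ∀ z : ℂ, (Φ z).re = (Φ 0).re + ((e : ℂ).re * z.re + (e : ℂ).im * z.im) := by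
      intro z; rw [d]; simp
    have r2 : ∀ z : ℂ, (Φ z).im = (Φ 0).im + (-(e : ℂ).re * z.im + (e : ℂ).im * z.re) := by
      intro z; rw [d]; simp
    rw [r1 ((X / 3 : ℝ) + (y : ℝ) * Complex.I), r2 ((X / 3 : ℝ) + (y : ℝ) * Complex.I)] at t1
    rw [r1 ((2 * X / 3 : ℝ) : ℂ), r2 ((2 * X / 3 : ℝ) : ℂ)] at t2
    rw [r1 ((X : ℝ) + (y : ℝ) * Complex.I), r2 ((X : ℝ) + (y : ℝ) * Complex.I)] at t3
    simp only [Complex.add_re, Complex.ofReal_re, Complex.mul_re, Complex.I_re, Complex.ofReal_im,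
      Complex.I_im, Complex.add_im, Complex.mul_im, mul_zero, zero_mul, mul_one, sub_self, add_zero,
      zero_add, sub_zero] at t1 t2 t3
    rw [hX3, hyk] at t1
    rw [hX6] at t2
    rw [hX9, hyk] at t3
    refine nofit (x := -(Φ 0).re) (y := (Φ 0).im) (C := -(e : ℂ).re)
      (S := (e : ℂ).im) (c₁ := 0) (c₂ := c)
      (m := ν) (n := κ)
      (by rw [neg_sq]; exact hcs) hκ0 hκν le_rfl (by rw [hσe]; ring) hr hr0
      hb ha hb0 ha0 hbσ haσ (by rw [mul_comm]; exact hmn) H1 (by rw [mul_comm ν]; exact H2b)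
      (by rw [mul_comm ν]; exact H3a) (k := l / (3 * r)) (by positivity) rfl rfl rfl rfl
      (zero_add c) t0.2.1 (by linarith [t0.1]) t0.2.2 ?_ ?_ ?_ ?_ ?_ ?_ ?_ ?_ ?_
    · linarith [t2.2.1]
    · linarith [t2.1]
    · linarith [t2.2.2]
    · linarith [t1.2.1]
    · linarith [t1.1]
    · linarith [t1.2.2]
    · linarith [t3.2.1]
    · linarith [t3.1]
    · linarith [t3.2.2]

end TriW
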