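import Pool.Agent.TriW.Chord
import Pool.Agent.TriW.Flat
import Pool.Agent.TriW.Zee

/-!
# Curves that fit in a triangle: the bounds in terms of the sides
-/

set_option autoImplicit false

noncomputable section

open Set

namespace TriW

/-- the set in the definition of `L` -/
def FitSet (T : Set ℂ) : Set ℝ := {l : ℝ | 0 ≤ l ∧ ∀ γ, IsCurve γ l → Fits γ T}

/-- data of a triangle -/
structure Data (A B C : ℂ) (a b c h μ : ℝ) : Prop where
  pos : Pos A B C c h μ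
  h1 : dist A B ≤ c
  h2 : dist B C ≤ c
  h3 : dist C A ≤ c
  m0 : 0 ≤ μ
  m1 : μ ≤ 1 / 2
  bc : (1 - μ) ^ 2 * c ^ 2 + h ^ 2 ≤ c ^ 2

theorem data {a b c : ℝ} (ha : 0 < a) (hab : a ≤ b) (hbc : b ≤ c) (hc : c < a + b) {A B C : ℂ}
    (hA : dist B C = a) (hB : dist C A = b) (hC : dist A B = c) :
    Data A B C a b c
      (Real.sqrt ((a + b + c) * (-a + b + c) * (a - b + c) * (a + b - c)) / (2 * c))
      ((a ^ 2 + c ^ 2 - b ^ 2) / (2 * c ^ 2)) := by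
  have hb0 : 0 < b := ha.trans_le hab
  have hc0 : 0 < c := hb0.trans_le hbc
  have p1 : 0 < a + b + c := by positivity
  have p2 : 0 < -a + b + c := by linarith
  have p3 : 0 < a - b + c := by linarith
  have p4 : 0 < a + b - c := by linarith
  have pp : 0 < (a + b + c) * (-a + b + c) * (a - b + c) * (a + b - c) := by positivity
  have hS0 := Real.sqrt_pos.2 pp
  have hpos := pos_of_dist hA hB hC rfl hS0 hc0
  refine ⟨hpos, hC.le, by linarith, by linarith, ?_, ?_, ?_⟩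
  · apply div_nonneg _ (by positivity)
    nlinarith
  · rw [div_le_iff₀ (by positivity)]
    nlinarith
  · have e : (Real.sqrt ((a + b + c) * (-a + b + c) * (a - b + c) * (a + b - c)) / (2 * c)) ^ 2 =
        ((a + b + c) * (-a + b + c) * (a - b + c) * (a + b - c)) / (4 * c ^ 2) := by
      rw [div_pow, Real.sq_sqrt pp.le]
      ring
    rw [e]
    have e2 : (1 - (a ^ 2 + c ^ 2 - b ^ 2) / (2 * c ^ 2)) ^ 2 * c ^ 2 +
        ((a + b + c) * (-a + b + c) * (a - b + c) * (a + b - c)) / (4 * c ^ 2) = b ^ 2 := by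
      field_simp
      ring
    rw [e2]
    gcongr

variable {A B C : ℂ} {a b c h μ : ℝ}

theorem mem_zero (_D : Data A B C a b c h μ) : (0 : ℝ) ∈ FitSet (Tri A B C) := by
  refine ⟨le_rfl, fun γ hγ => ?_⟩
  have hA : A ∈ Tri A B C := subset_convexHull ℝ _ (by simp)
  refine ⟨IsometryEquiv.addRight (A - γ 0), fun t => ?_⟩
  change γ t + (A - γ 0) ∈ _
  have h1 := hγ.dist_le le_rfl t 0
  have h2 : γ t = γ 0 := dist_le_zero.1 h1
  rw [h2]
  convert hA using 1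
  ring

theorem L_le (D : Data A B C a b c h μ) {U : ℝ} (hU : ∀ l ∈ FitSet (Tri A B C), l ≤ U) :
    L (Tri A B C) ≤ U := csSup_le ⟨0, mem_zero D⟩ hU

theorem bdd (D : Data A B C a b c h μ) : BddAbove (FitSet (Tri A B C)) :=
  ⟨c, fun _ hl => (upper D.pos D.h1 D.h2 D.h3 hl.1 hl.2).1⟩

theorem le_L (D : Data A B C a b c h μ) {l : ℝ} (hl : 0 ≤ l)
    (h : ∀ γ, IsCurve γ l → Fits γ (Tri A B C)) : l ≤ L (Tri A B C) :=
  le_csSup (bdd D) ⟨hl, h⟩

theorem L_upper (D : Data A B C a b c h μ) : L (Tri A B C) ≤ min c (4 * h / Real.sqrt 3) :=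
  L_le D fun _ hl => le_min (upper D.pos D.h1 D.h2 D.h3 hl.1 hl.2).1
    (upper D.pos D.h1 D.h2 D.h3 hl.1 hl.2).2

/-- the chord bound -/
theorem L_chord (D : Data A B C a b c h μ) :
    4 / Real.sqrt (max (16 / c ^ 2 + 1 / h ^ 2) (max (9 / c ^ 2 + (2 - μ) ^ 2 / h ^ 2)
      (4 / c ^ 2 + 4 / h ^ 2))) ≤ L (Tri A B C) := by
  have hc := D.pos.c_pos
  have hh := D.pos.h_pos
  set m := max (16 / c ^ 2 + 1 / h ^ 2) (max (9 / c ^ 2 + (2 - μ) ^ 2 / h ^ 2)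
      (4 / c ^ 2 + 4 / h ^ 2)) with hm
  have m1 : 16 / c ^ 2 + 1 / h ^ 2 ≤ m := le_max_left _ _
  have m2 : 9 / c ^ 2 + (2 - μ) ^ 2 / h ^ 2 ≤ m := (le_max_left _ _).trans (le_max_right _ _)
  have m3 : 4 / c ^ 2 + 4 / h ^ 2 ≤ m := (le_max_right _ _).trans (le_max_right _ _)
  have m0 : 0 < m := lt_of_lt_of_le (by positivity) m1
  have hs : Real.sqrt m ^ 2 = m := Real.sq_sqrt m0.le
  have hs0 : 0 < Real.sqrt m := Real.sqrt_pos.2 m0
  refine le_L D (by positivity) fun γ hγ => ?_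
  exact all D.pos D.m0 D.m1 (by positivity) hs0 (by rw [hs]; exact m1) (by rw [hs]; exact m2)
    (by rw [hs]; exact m3) (by rw [div_mul_cancel₀ _ hs0.ne']) hγ

/-- the ratio of the bounds -/
theorem L_ratio (D : Data A B C a b c h μ) :
    min c (4 * h / Real.sqrt 3) ≤ Real.sqrt (91 / 48) * L (Tri A B C) := by
  have hc := D.pos.c_pos
  have hh := D.pos.h_pos
  refine le_trans ?_ (mul_le_mul_of_nonneg_left (L_chord D) (Real.sqrt_nonneg _))
  set m := max (16 / c ^ 2 + 1 / h ^ 2) (max (9 / c ^ 2 + (2 - μ) ^ 2 / h ^ 2)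
      (4 / c ^ 2 + 4 / h ^ 2)) with hm
  have m1 : 16 / c ^ 2 + 1 / h ^ 2 ≤ m := le_max_left _ _
  have m0 : 0 < m := lt_of_lt_of_le (by positivity) m1
  have hs : Real.sqrt m ^ 2 = m := Real.sq_sqrt m0.le
  have hs0 : 0 < Real.sqrt m := Real.sqrt_pos.2 m0
  set U := min c (4 * h / Real.sqrt 3) with hU
  have r3 : 0 < Real.sqrt 3 := Real.sqrt_pos.2 (by norm_num)
  have r3' : Real.sqrt 3 ^ 2 = 3 := Real.sq_sqrt (by norm_num)
  have hU0 : 0 < U := lt_min hc (by positivity)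
  have u1 : U ^ 2 / c ^ 2 ≤ 1 := by
    rw [div_le_one (by positivity)]
    have : U ≤ c := min_le_left _ _
    gcongr
  have u2 : U ^ 2 / h ^ 2 ≤ 16 / 3 := by
    rw [div_le_iff₀ (by positivity)]
    have : U ≤ 4 * h / Real.sqrt 3 := min_le_right _ _
    calc U ^ 2 ≤ (4 * h / Real.sqrt 3) ^ 2 := by gcongr
      _ = 16 / 3 * h ^ 2 := by rw [div_pow, r3']; ring
  have key : U ^ 2 * m ≤ 91 / 3 := by
    have v0 : 0 ≤ U ^ 2 / h ^ 2 := by positivity
    have w1 : U ^ 2 * (16 / c ^ 2 + 1 / h ^ 2) ≤ 91 / 3 := by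
      have : U ^ 2 * (16 / c ^ 2 + 1 / h ^ 2) = 16 * (U ^ 2 / c ^ 2) + U ^ 2 / h ^ 2 := by ring
      rw [this]; linarith
    have w2 : U ^ 2 * (9 / c ^ 2 + (2 - μ) ^ 2 / h ^ 2) ≤ 91 / 3 := by
      have : U ^ 2 * (9 / c ^ 2 + (2 - μ) ^ 2 / h ^ 2) =
          9 * (U ^ 2 / c ^ 2) + (2 - μ) ^ 2 * (U ^ 2 / h ^ 2) := by ring
      rw [this]
      have h4 : (2 - μ) ^ 2 ≤ 4 := by nlinarith [D.m0, D.m1]
      have := mul_le_mul_of_nonneg_right h4 v0
      linarith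
    have w3 : U ^ 2 * (4 / c ^ 2 + 4 / h ^ 2) ≤ 91 / 3 := by
      have : U ^ 2 * (4 / c ^ 2 + 4 / h ^ 2) = 4 * (U ^ 2 / c ^ 2) + 4 * (U ^ 2 / h ^ 2) := by ring
      rw [this]; linarith
    rw [hm]
    rcases max_choice (16 / c ^ 2 + 1 / h ^ 2) (max (9 / c ^ 2 + (2 - μ) ^ 2 / h ^ 2)
      (4 / c ^ 2 + 4 / h ^ 2)) with e | e
    · rw [e]; exact w1
    · rw [e]
      rcases max_choice (9 / c ^ 2 + (2 - μ) ^ 2 / h ^ 2) (4 / c ^ 2 + 4 / h ^ 2) with e | e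
      · rw [e]; exact w2
      · rw [e]; exact w3
  have hq : Real.sqrt (91 / 48) ^ 2 = 91 / 48 := Real.sq_sqrt (by norm_num)
  rw [← mul_div_assoc, le_div_iff₀ hs0]
  refine abs_le_of_sq_le_sq' ?_ (by positivity) |>.2
  rw [mul_pow, hs, mul_pow, hq]
  linarith

/-- lower bound for fat triangles -/
theorem L_fat (D : Data A B C a b c h μ) (hch : 5 * c ^ 2 ≤ 12 * h ^ 2) :
    6 * h * c / Real.sqrt (36 * h ^ 2 + c ^ 2) ≤ L (Tri A B C) := by
  have hc := D.pos.c_pos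
  have hh := D.pos.h_pos
  have e : 36 * h ^ 2 + c ^ 2 = c ^ 2 + 36 * h ^ 2 := by ring
  refine le_L D (by positivity) fun γ hγ => ?_
  refine fat D.pos ?_ (by linarith [D.m1]) hch (by positivity) (by rw [e]) hγ
  have := D.bc
  have h0 : 0 < c ^ 2 := by positivity
  have : (1 - μ) ^ 2 * c ^ 2 ≤ 7 / 12 * c ^ 2 := by nlinarith
  have h2 : (1 - μ) ^ 2 ≤ 7 / 12 := le_of_mul_le_mul_right this h0
  by_contra hcon
  rw [not_le] at hcon
  nlinarith

/-- upper bound for fat triangles -/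
theorem L_zee (D : Data A B C a b c h μ) (hch : 2 * c ^ 2 ≤ 9 * h ^ 2) :
    L (Tri A B C) ≤ 6 * h * c / Real.sqrt (36 * h ^ 2 + 4 * μ ^ 2 * c ^ 2) := by
  have hc := D.pos.c_pos
  have hh := D.pos.h_pos
  have hμ0 : 0 < μ := by
    have := D.bc
    have h0 : 0 < c ^ 2 := by positivity
    have : (1 - μ) ^ 2 * c ^ 2 ≤ 7 / 9 * c ^ 2 := by nlinarith
    have h2 : (1 - μ) ^ 2 ≤ 7 / 9 := le_of_mul_le_mul_right this h0
    by_contra hcon
    rw [not_lt] at hcon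
    nlinarith
  refine L_le D fun l hl => ?_
  have := zee_upper D.pos hμ0 D.m1 D.bc hch hl.1 hl.2
  refine this.trans_eq ?_
  have e : 36 * h ^ 2 + 4 * μ ^ 2 * c ^ 2 = 2 ^ 2 * (9 * h ^ 2 + μ ^ 2 * c ^ 2) := by ring
  rw [e, Real.sqrt_mul (by positivity), Real.sqrt_sq (by norm_num)]
  have : 0 < Real.sqrt (9 * h ^ 2 + μ ^ 2 * c ^ 2) := Real.sqrt_pos.2 (by positivity)
  field_simp
  norm_num

/-- flat triangles -/
theorem L_flat (D : Data A B C a b c h μ) :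
    L (Tri A B C) * w₀ ≤ h ∧ h * c ≤ L (Tri A B C) * (w₀ * c + h) := by
  have hc := D.pos.c_pos
  have hh := D.pos.h_pos
  have hw0 : 0 ≤ w₀ := le_csSup w₀_bdd w₀_nonempty
  have hL0 : 0 ≤ L (Tri A B C) := le_csSup (bdd D) (mem_zero D)
  constructor
  · rcases hw0.eq_or_lt with hw | hw
    · rw [← hw, mul_zero]; exact hh.le
    · rw [← le_div_iff₀ hw]
      refine L_le D fun l hl => ?_
      rw [le_div_iff₀ hw]
      rcases hl.1.eq_or_lt with h0 | h0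
      · rw [← h0, zero_mul]; exact hh.le
      · exact flat_upper D.pos h0 hl.2
  · have hq : 0 < w₀ * c + h := by positivity
    rw [← div_le_iff₀ hq]
    refine le_of_forall_lt fun l hl => ?_
    rcases lt_or_ge 0 l with h0 | h0
    · obtain ⟨l', h1, h2⟩ := exists_between hl
      refine lt_of_lt_of_le h1 (le_L D (h0.trans h1).le fun γ hγ => ?_)
      refine flat_lower D.pos D.m0 (by linarith [D.m1]) (h0.trans h1) ?_ hγ
      rw [lt_div_iff₀ hq] at h2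
      rw [div_add_div _ _ hh.ne' hc.ne', div_lt_one (by positivity)]
      linarith
    · refine lt_of_le_of_lt h0 ?_
      refine lt_of_lt_of_le ?_ (L_chord D)
      have : 0 < max (16 / c ^ 2 + 1 / h ^ 2) (max (9 / c ^ 2 + (2 - μ) ^ 2 / h ^ 2)
          (4 / c ^ 2 + 4 / h ^ 2)) := lt_of_lt_of_le (by positivity) (le_max_left _ _)
      positivity

theorem conv_low {c S : ℝ} (hc : 0 < c) (hS : 0 < S) :
    6 * (S / (2 * c)) * c / Real.sqrt (36 * (S / (2 * c)) ^ 2 + c ^ 2) =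
      3 * c * S / Real.sqrt (9 * S ^ 2 + c ^ 4) := by
  have e : 36 * (S / (2 * c)) ^ 2 + c ^ 2 = (9 * S ^ 2 + c ^ 4) / c ^ 2 := by
    field_simp
    ring
  rw [e, Real.sqrt_div' _ (by positivity), Real.sqrt_sq hc.le]
  have : 0 < Real.sqrt (9 * S ^ 2 + c ^ 4) := Real.sqrt_pos.2 (by positivity)
  field_simp
  norm_num

theorem conv_up {c S d : ℝ} (hc : 0 < c) (hS : 0 < S) :
    6 * (S / (2 * c)) * c / Real.sqrt (36 * (S / (2 * c)) ^ 2 + 4 * (d / (2 * c ^ 2)) ^ 2 * c ^ 2) =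
      3 * c * S / Real.sqrt (9 * S ^ 2 + d ^ 2) := by
  have e : 36 * (S / (2 * c)) ^ 2 + 4 * (d / (2 * c ^ 2)) ^ 2 * c ^ 2 =
      (9 * S ^ 2 + d ^ 2) / c ^ 2 := by
    field_simp
    ring
  rw [e, Real.sqrt_div' _ (by positivity), Real.sqrt_sq hc.le]
  have : 0 < Real.sqrt (9 * S ^ 2 + d ^ 2) := Real.sqrt_pos.2 (by positivity)
  field_simp
  norm_num

end TriW
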