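import Pool.Agent.TriW.Defs

/-!
# Upper bounds: segments and two-segment curves
-/

set_option autoImplicit false

noncomputable section

open Set

namespace TriW

theorem isCurve_of {F : ℝ → ℂ} {l : ℝ} (hl : 0 ≤ l)
    (hF : ∀ x y, dist (F x) (F y) ≤ l * |x - y|)
    (hlow : ENNReal.ofReal l ≤ eVariationOn (fun t : unitInterval => F t) univ) :
    IsCurve (fun t : unitInterval => F t) l := by
  have hLip : LipschitzWith (Real.toNNReal l) F := by
    refine LipschitzWith.of_dist_le_mul fun x y => ?_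
    rw [Real.coe_toNNReal l hl, Real.dist_eq]
    exact hF x y
  refine ⟨hLip.continuous.comp continuous_subtype_val, le_antisymm ?_ hlow⟩
  have h1 := (hLip.lipschitzOnWith (s := univ)).comp_eVariationOn_le
    (g := fun t : unitInterval => (t : ℝ)) (s := univ) (fun _ _ => mem_univ _)
  have h2 : eVariationOn (fun t : unitInterval => (t : ℝ)) univ ≤ 1 := by
    have hm : MonotoneOn (fun t : unitInterval => (t : ℝ)) univ := fun x _ y _ h => h
    have := (hm.eVariationOn_eq (mem_univ (0 : unitInterval)) (mem_univ (1 : unitInterval))).le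
    have e : (univ : Set unitInterval) ∩ Icc 0 1 = univ := by
      ext t
      simp only [mem_inter_iff, mem_univ, mem_Icc, true_and, iff_true]
      exact ⟨unitInterval.nonneg', unitInterval.le_one'⟩
    rw [e] at this
    simpa using this
  calc eVariationOn (fun t : unitInterval => F t) univ ≤ _ := h1
    _ ≤ (Real.toNNReal l : ENNReal) * 1 := by gcongr
    _ = ENNReal.ofReal l := by rw [mul_one]; rfl

/-- the segment of length `l` -/
def seg (l : ℝ) (x : ℝ) : ℂ := ((l * x : ℝ) : ℂ)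

theorem isCurve_seg {l : ℝ} (hl : 0 ≤ l) : IsCurve (fun t : unitInterval => seg l t) l := by
  refine isCurve_of hl (fun x y => ?_) ?_
  · unfold seg
    rw [Complex.dist_of_im_eq (by simp), Complex.ofReal_re, Complex.ofReal_re, Real.dist_eq,
      ← mul_sub, abs_mul, abs_of_nonneg hl]
  · refine le_trans ?_ (eVariationOn.edist_le _ (mem_univ (1 : unitInterval))
      (mem_univ (0 : unitInterval)))
    rw [edist_dist]
    refine ENNReal.ofReal_le_ofReal ?_
    unfold seg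
    rw [Complex.dist_of_im_eq (by simp), Complex.ofReal_re, Complex.ofReal_re, Real.dist_eq]
    simp
    exact le_abs_self l

/-- the curve of two segments of length `l / 2` spanning an angle of `60°` -/
def vee (l : ℝ) (x : ℝ) : ℂ :=
  ((l / 2 * x : ℝ) : ℂ) + ((l / 2 * (Real.sqrt 3 / 2) * (1 - |1 - 2 * x|) : ℝ) : ℂ) * Complex.I

theorem dist_vee {l : ℝ} (hl : 0 ≤ l) (x y : ℝ) : dist (vee l x) (vee l y) ≤ l * |x - y| := by
  have h3 : Real.sqrt 3 ^ 2 = 3 := Real.sq_sqrt (by norm_num)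
  rw [Complex.dist_eq, Complex.norm_eq_sqrt_sq_add_sq]
  refine Real.sqrt_le_iff.2 ⟨by positivity, ?_⟩
  have hr : (vee l x - vee l y).re = l / 2 * (x - y) := by
    unfold vee; simp; ring
  have hi : (vee l x - vee l y).im = l / 2 * (Real.sqrt 3 / 2) * (|1 - 2 * y| - |1 - 2 * x|) := by
    unfold vee; simp; ring
  have h1 : (|1 - 2 * y| - |1 - 2 * x|) ^ 2 ≤ 4 * (x - y) ^ 2 := by
    have := abs_abs_sub_abs_le (1 - 2 * y) (1 - 2 * x)
    rw [← sq_abs]
    calc |(|1 - 2 * y| - |1 - 2 * x|)| ^ 2 ≤ |1 - 2 * y - (1 - 2 * x)| ^ 2 := by gcongr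
      _ = 4 * (x - y) ^ 2 := by rw [sq_abs]; ring
  rw [hr, hi, mul_pow l, sq_abs]
  have e : (l / 2 * (Real.sqrt 3 / 2) * (|1 - 2 * y| - |1 - 2 * x|)) ^ 2 =
      3 / 16 * l ^ 2 * (|1 - 2 * y| - |1 - 2 * x|) ^ 2 := by
    rw [mul_pow, mul_pow, div_pow (Real.sqrt 3), h3]
    ring
  rw [e]
  nlinarith [mul_nonneg (sq_nonneg l) (sub_nonneg.2 h1)]

/-- the midpoint of the unit interval -/
def half : unitInterval := ⟨1 / 2, by norm_num, by norm_num⟩

theorem vee_zero (l : ℝ) : vee l 0 = 0 := by unfold vee; simp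

theorem vee_one (l : ℝ) : vee l 1 = ((l / 2 : ℝ) : ℂ) := by
  unfold vee
  norm_num

theorem vee_half (l : ℝ) : vee l (1 / 2) =
    ((l / 4 : ℝ) : ℂ) + ((l / 2 * (Real.sqrt 3 / 2) : ℝ) : ℂ) * Complex.I := by
  have e1 : l / 2 * (1 / 2) = l / 4 := by ring
  have e2 : l / 2 * (Real.sqrt 3 / 2) * (1 - |1 - 2 * (1 / 2)|) = l / 2 * (Real.sqrt 3 / 2) := by
    norm_num
  unfold vee
  rw [e1, e2]

theorem dist_eq_of_sq {z w : ℂ} {d : ℝ} (hd : 0 ≤ d) (h : (z - w).re ^ 2 + (z - w).im ^ 2 = d ^ 2) :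
    dist z w = d := by
  rw [Complex.dist_eq, Complex.norm_eq_sqrt_sq_add_sq, h, Real.sqrt_sq hd]

theorem vee_dists {l : ℝ} (hl : 0 ≤ l) : dist (vee l 0) (vee l (1 / 2)) = l / 2 ∧
    dist (vee l (1 / 2)) (vee l 1) = l / 2 ∧ dist (vee l 1) (vee l 0) = l / 2 := by
  have h3 : Real.sqrt 3 ^ 2 = 3 := Real.sq_sqrt (by norm_num)
  rw [vee_zero, vee_one, vee_half]
  refine ⟨dist_eq_of_sq (by positivity) ?_, dist_eq_of_sq (by positivity) ?_,
    dist_eq_of_sq (by positivity) ?_⟩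
  · simp
    nlinarith
  · simp
    nlinarith
  · simp

theorem isCurve_vee {l : ℝ} (hl : 0 ≤ l) : IsCurve (fun t : unitInterval => vee l t) l := by
  refine isCurve_of hl (dist_vee hl) ?_
  obtain ⟨d1, d2, -⟩ := vee_dists hl
  have hh : ((half : unitInterval) : ℝ) = 1 / 2 := rfl
  have h0 : (0 : unitInterval) ≤ half := unitInterval.nonneg'
  have h1 : half ≤ (1 : unitInterval) := unitInterval.le_one'
  have key := eVariationOn.Icc_add_Icc (fun t : unitInterval => vee l t) (s := univ) h0 h1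
    (mem_univ _)
  have k1 : ENNReal.ofReal (l / 2) ≤
      eVariationOn (fun t : unitInterval => vee l t) (univ ∩ Icc 0 half) := by
    refine le_trans ?_ (eVariationOn.edist_le _ (x := (0 : unitInterval)) (y := half)
      ⟨mem_univ _, left_mem_Icc.2 h0⟩ ⟨mem_univ _, right_mem_Icc.2 h0⟩)
    rw [edist_dist, hh, Set.Icc.coe_zero, d1]
  have k2 : ENNReal.ofReal (l / 2) ≤
      eVariationOn (fun t : unitInterval => vee l t) (univ ∩ Icc half 1) := by
    refine le_trans ?_ (eVariationOn.edist_le _ (x := half) (y := (1 : unitInterval))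
      ⟨mem_univ _, left_mem_Icc.2 h1⟩ ⟨mem_univ _, right_mem_Icc.2 h1⟩)
    rw [edist_dist, hh, Set.Icc.coe_one, d2]
  calc ENNReal.ofReal l = ENNReal.ofReal (l / 2) + ENNReal.ofReal (l / 2) := by
        rw [← ENNReal.ofReal_add (by positivity) (by positivity)]
        congr 1; ring
    _ ≤ _ := add_le_add k1 k2
    _ = _ := key
    _ ≤ _ := eVariationOn.mono _ inter_subset_left

/-! ## the triangle lies in a strip and has diameter `c` -/

/-- height over the side `AB` in the frame `u` -/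
def G (u : Circle) (z : ℂ) : ℝ := (z * (starRingEnd ℂ) (u : ℂ)).im

theorem G_sub (u : Circle) (z w : ℂ) : G u z - G u w = G u (z - w) := by
  unfold G
  rw [sub_mul, Complex.sub_im]

theorem norm_conj_circle (u : Circle) : ‖(starRingEnd ℂ) (u : ℂ)‖ = 1 := by
  rw [RCLike.norm_conj]
  exact u.norm_coe

theorem tri_strip {A B C : ℂ} {c h μ : ℝ} (H : Pos A B C c h μ) :
    ∃ u : Circle, ∀ z ∈ Tri A B C, ∀ w ∈ Tri A B C, |G u z - G u w| ≤ h := by
  obtain ⟨u, s, hs, hB, hC⟩ := H.ex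
  have hh := H.h_pos
  refine ⟨u, ?_⟩
  have hu : (u : ℂ) * (starRingEnd ℂ) (u : ℂ) = 1 := by
    rw [Complex.mul_conj, Complex.normSq_eq_norm_sq, u.norm_coe]
    simp
  have conv : Convex ℝ {z : ℂ | 0 ≤ s * (G u z - G u A) ∧ s * (G u z - G u A) ≤ h} := by
    intro z hz w hw x y hx hy hxy
    have e : s * (G u (x • z + y • w) - G u A) =
        x * (s * (G u z - G u A)) + y * (s * (G u w - G u A)) := by
      have : G u (x • z + y • w) = x * G u z + y * G u w := by
        unfold G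
        simp only [Complex.real_smul, add_mul, Complex.add_im, mul_assoc, Complex.im_ofReal_mul]
      rw [this]
      have : y = 1 - x := by linarith
      rw [this]
      ring
    obtain ⟨h1, h2⟩ := hz
    obtain ⟨h3, h4⟩ := hw
    constructor
    · rw [e]
      positivity
    · rw [e]
      calc _ ≤ x * h + y * h := by gcongr
        _ = h := by rw [← add_mul, hxy, one_mul]
  have hGB : G u B = G u A := by
    have e : B * (starRingEnd ℂ) (u : ℂ) = A * (starRingEnd ℂ) (u : ℂ) + (c : ℂ) := by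
      rw [hB]
      linear_combination (c : ℂ) * hu
    unfold G
    rw [e]
    simp
  have hGC : G u C = G u A + s * h := by
    have e : C * (starRingEnd ℂ) (u : ℂ) = A * (starRingEnd ℂ) (u : ℂ) +
        ((((1 - μ) * c : ℝ) : ℂ) + (s * h : ℝ) * Complex.I) := by
      rw [hC]
      linear_combination ((((1 - μ) * c : ℝ) : ℂ) + (s * h : ℝ) * Complex.I) * hu
    unfold G
    rw [e]
    simp
  have hs2 : s * s = 1 := by rcases hs with rfl | rfl <;> norm_num
  have sub : Tri A B C ⊆ {z : ℂ | 0 ≤ s * (G u z - G u A) ∧ s * (G u z - G u A) ≤ h} := by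
    refine convexHull_min ?_ conv
    intro z hz
    simp only [mem_insert_iff, mem_singleton_iff] at hz
    rcases hz with rfl | rfl | rfl
    · simp [hh.le]
    · simp [hGB, hh.le]
    · have : s * (G u z - G u A) = h := by
        rw [hGC]
        linear_combination h * hs2
      simp only [mem_ofPred_eq, this]
      exact ⟨hh.le, le_rfl⟩
  intro z hz w hw
  have h1 := sub hz
  have h2 := sub hw
  simp only [mem_ofPred_eq] at h1 h2
  rcases hs with rfl | rfl
  · rw [abs_le]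
    constructor <;> linarith [h1.1, h1.2, h2.1, h2.2]
  · rw [abs_le]
    constructor <;> linarith [h1.1, h1.2, h2.1, h2.2]

theorem tri_diam {A B C : ℂ} {c : ℝ} (h1 : dist A B ≤ c) (h2 : dist B C ≤ c) (h3 : dist C A ≤ c)
    (hc : 0 ≤ c) : ∀ z ∈ Tri A B C, ∀ w ∈ Tri A B C, dist z w ≤ c := by
  intro z hz w hw
  have hb : Bornology.IsBounded (Tri A B C) := by
    unfold Tri
    exact isBounded_convexHull.2 (Set.toFinite _).isBounded
  refine (Metric.dist_le_diam_of_mem hb hz hw).trans ?_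
  unfold Tri
  rw [convexHull_diam]
  refine Metric.diam_le_of_forall_dist_le hc ?_
  intro x hx y hy
  simp only [mem_insert_iff, mem_singleton_iff] at hx hy
  rcases hx with rfl | rfl | rfl <;> rcases hy with rfl | rfl | rfl <;>
    first | simpa using hc | assumption | (rw [dist_comm]; assumption)

/-- equilateral triangles have width at least `√3 / 2` times the side in every direction -/
theorem equi {s m y₁ y₂ x₁ x₂ : ℝ} (hs : 0 < s) (h1 : x₁ ^ 2 + y₁ ^ 2 = s ^ 2)
    (h2 : x₂ ^ 2 + y₂ ^ 2 = s ^ 2) (h3 : (x₁ + x₂) ^ 2 + (y₁ + y₂) ^ 2 = s ^ 2)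
    (m1 : |y₁| ≤ m) (m2 : |y₂| ≤ m) (m3 : |y₁ + y₂| ≤ m) : 3 / 4 * s ^ 2 ≤ m ^ 2 := by
  have key : y₁ ^ 2 + y₁ * y₂ + y₂ ^ 2 = 3 / 4 * s ^ 2 := by
    have e1 : x₁ * x₂ = -(s ^ 2) / 2 - y₁ * y₂ := by linarith
    have e2 : x₁ ^ 2 * x₂ ^ 2 = (s ^ 2 / 2 + y₁ * y₂) ^ 2 := by
      rw [← mul_pow, e1]; ring
    have e3 : (s ^ 2 - y₁ ^ 2) * (s ^ 2 - y₂ ^ 2) = (s ^ 2 / 2 + y₁ * y₂) ^ 2 := by
      rw [← e2, ← h1, add_sub_cancel_right]
      congr 1
      linarith
    have e4 : s ^ 2 * (3 / 4 * s ^ 2 - (y₁ ^ 2 + y₁ * y₂ + y₂ ^ 2)) = 0 := by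
      linear_combination e3
    rcases mul_eq_zero.1 e4 with h | h
    · exact absurd h (by positivity)
    · linarith
  rw [← key]
  obtain ⟨a1, a2⟩ := abs_le.1 m1
  obtain ⟨b1, b2⟩ := abs_le.1 m2
  obtain ⟨c1, c2⟩ := abs_le.1 m3
  rcases le_total 0 y₁ with h | h <;> rcases le_total 0 y₂ with h' | h' <;>
    rcases le_total 0 (y₁ + y₂) with h'' | h'' <;> nlinarith

/-- Upper bound. -/
theorem upper {A B C : ℂ} {c h μ : ℝ} (H : Pos A B C c h μ) (h1 : dist A B ≤ c) (h2 : dist B C ≤ c)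
    (h3 : dist C A ≤ c) {l : ℝ} (hl : 0 ≤ l) (hfit : ∀ γ, IsCurve γ l → Fits γ (Tri A B C)) :
    l ≤ c ∧ l ≤ 4 * h / Real.sqrt 3 := by
  constructor
  · obtain ⟨φ, hφ⟩ := hfit _ (isCurve_seg hl)
    have := tri_diam h1 h2 h3 H.c_pos.le _ (hφ 0) _ (hφ 1)
    rw [φ.dist_eq] at this
    refine le_trans (le_of_eq ?_) this
    unfold seg
    rw [Complex.dist_of_im_eq (by simp), Complex.ofReal_re, Complex.ofReal_re, Real.dist_eq]
    simp [abs_of_nonneg hl]
  · rcases hl.eq_or_lt with rfl | hl0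
    · have := H.h_pos
      positivity
    obtain ⟨φ, hφ⟩ := hfit _ (isCurve_vee hl)
    obtain ⟨u, hu⟩ := tri_strip H
    obtain ⟨d1, d2, d3⟩ := vee_dists hl
    have hh : ((half : unitInterval) : ℝ) = 1 / 2 := rfl
    have f0 := hφ 0
    have f1 := hφ half
    have f2 := hφ 1
    simp only [Set.Icc.coe_zero, Set.Icc.coe_one, hh] at f0 f1 f2
    rw [← φ.dist_eq] at d1 d2 d3
    generalize φ (vee l 0) = P₀ at *
    generalize φ (vee l (1 / 2)) = P₁ at *
    generalize φ (vee l 1) = P₂ at *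
    have m1 := hu _ f1 _ f0
    have m2 := hu _ f2 _ f1
    have m3 := hu _ f2 _ f0
    rw [G_sub] at m1 m2 m3
    have nsq : ∀ z : ℂ, ((z * (starRingEnd ℂ) (u : ℂ)).re) ^ 2 + (G u z) ^ 2 = ‖z‖ ^ 2 := by
      intro z
      have : ‖z * (starRingEnd ℂ) (u : ℂ)‖ = ‖z‖ := by rw [norm_mul, norm_conj_circle, mul_one]
      rw [← this, Complex.sq_norm, Complex.normSq_apply]
      unfold G
      ring
    have q1 : ‖P₁ - P₀‖ = l / 2 := by rw [← dist_eq_norm, dist_comm]; exact d1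
    have q2 : ‖P₂ - P₁‖ = l / 2 := by rw [← dist_eq_norm, dist_comm]; exact d2
    have q3 : ‖P₂ - P₀‖ = l / 2 := by rw [← dist_eq_norm]; exact d3
    have n1 := nsq (P₁ - P₀)
    have n2 := nsq (P₂ - P₁)
    have n3 := nsq (P₂ - P₀)
    rw [q1] at n1
    rw [q2] at n2
    rw [q3] at n3
    have s3 : P₂ - P₀ = (P₁ - P₀) + (P₂ - P₁) := by ring
    have s4 : G u (P₂ - P₀) = G u (P₁ - P₀) + G u (P₂ - P₁) := by
      rw [s3]; unfold G; rw [add_mul, Complex.add_im]
    have s5 : ((P₂ - P₀) * (starRingEnd ℂ) (u : ℂ)).re =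
        ((P₁ - P₀) * (starRingEnd ℂ) (u : ℂ)).re + ((P₂ - P₁) * (starRingEnd ℂ) (u : ℂ)).re := by
      rw [s3, add_mul, Complex.add_re]
    rw [s4] at m3
    rw [s4, s5] at n3
    have := equi (s := l / 2) (by positivity) n1 n2 n3 m1 m2 m3
    have r3 : 0 < Real.sqrt 3 := Real.sqrt_pos.2 (by norm_num)
    rw [le_div_iff₀ r3]
    refine abs_le_of_sq_le_sq' ?_ (by have := H.h_pos; positivity) |>.2
    rw [mul_pow, Real.sq_sqrt (by norm_num)]
    nlinarith

end TriW
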